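import Pool.Agent.TH612.CF.Dir

set_option autoImplicit false

/-! The factor of the functional equation. -/

namespace Pool.Agent.TH612.CF

open Complex Filter Topology MeasureTheory Set
open Pool.Agent.W182.KO

noncomputable section

/-- the factor of the functional equation `ζ(s) = χ(s) ζ(1-s)` -/
def chi (s : ℂ) : ℂ := (Real.pi : ℂ) ^ (s - 1 / 2) * Gamma ((1 - s) / 2) / Gamma (s / 2)

lemma Gne {z : ℂ} (hz : 0 < z.re) : Gamma z ≠ 0 := Gamma_ne_zero_of_re_pos hz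

lemma chi_mul {w : ℂ} (h : |w.re| < 1 / 2) : chi (1 / 2 + w) * chi (1 / 2 - w) = 1 := by
  have h' := abs_lt.1 h
  unfold chi
  have hpi : (Real.pi : ℂ) ≠ 0 := by exact_mod_cast Real.pi_ne_zero
  have g1 : Gamma ((1 / 2 + w) / 2) ≠ 0 := Gne (by simp; linarith)
  have g2 : Gamma ((1 / 2 - w) / 2) ≠ 0 := Gne (by simp; linarith)
  have e1 : (1 - (1 / 2 + w)) / 2 = (1 / 2 - w) / 2 := by ring
  have e2 : (1 - (1 / 2 - w)) / 2 = (1 / 2 + w) / 2 := by ring
  have e3 : (Real.pi : ℂ) ^ (1 / 2 + w - 1 / 2) * (Real.pi : ℂ) ^ (1 / 2 - w - 1 / 2) = 1 := by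
    rw [← Complex.cpow_add _ _ hpi]
    have : (1 / 2 + w - 1 / 2 + (1 / 2 - w - 1 / 2)) = 0 := by ring
    rw [this, Complex.cpow_zero]
  rw [e1, e2]
  generalize Gamma ((1 / 2 + w) / 2) = A at *
  generalize Gamma ((1 / 2 - w) / 2) = B at *
  generalize (Real.pi : ℂ) ^ (1 / 2 + w - 1 / 2) = P1 at *
  generalize (Real.pi : ℂ) ^ (1 / 2 - w - 1 / 2) = P2 at *
  field_simp
  linear_combination e3

lemma chi_ne {w : ℂ} (h : |w.re| < 1 / 2) : chi (1 / 2 + w) ≠ 0 := left_ne_zero_of_mul_eq_one (chi_mul h)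

lemma chi_inv {w : ℂ} (h : |w.re| < 1 / 2) : (chi (1 / 2 + w))⁻¹ = chi (1 / 2 - w) :=
  inv_eq_of_mul_eq_one_right (chi_mul h)

lemma chi_diff {w : ℂ} (h : |w.re| < 1 / 2) : DifferentiableAt ℂ chi (1 / 2 + w) := by
  have h' := abs_lt.1 h
  unfold chi
  have hpi : (Real.pi : ℂ) ≠ 0 := by exact_mod_cast Real.pi_ne_zero
  have hG : ∀ z : ℂ, 0 < z.re → DifferentiableAt ℂ Gamma z := by
    intro z hz
    refine differentiableAt_Gamma z fun n hn => ?_
    rw [hn] at hz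
    simp at hz
    have : (0:ℝ) ≤ n := Nat.cast_nonneg n
    linarith
  refine DifferentiableAt.div (DifferentiableAt.mul ?_ ?_) ?_ ?_
  · exact DifferentiableAt.const_cpow (by fun_prop) (Or.inl hpi)
  · exact DifferentiableAt.comp _ (hG _ (by simp; linarith)) (by fun_prop)
  · exact DifferentiableAt.comp _ (hG _ (by simp; linarith)) (by fun_prop)
  · exact Gne (by simp; linarith)

/-- link with `XX` -/
lemma chi_XX {w : ℂ} (h0 : 0 < w.re) (h1 : w.re < 1) : chi (1 - w) = XX w := by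
  have hpi : (Real.pi : ℂ) ≠ 0 := by exact_mod_cast Real.pi_ne_zero
  unfold chi XX
  have d1 := Complex.Gamma_mul_Gamma_add_half (w / 2)
  have d2 := Complex.Gamma_mul_Gamma_one_sub ((1 + w) / 2)
  have e1 : 2 * (w / 2) = w := by ring
  have e2 : w / 2 + 1 / 2 = (1 + w) / 2 := by ring
  have e3 : 1 - (1 + w) / 2 = (1 - w) / 2 := by ring
  have e4 : sin (Real.pi * ((1 + w) / 2)) = cos (Real.pi * w / 2) := by
    have : (Real.pi : ℂ) * ((1 + w) / 2) = Real.pi * w / 2 + Real.pi / 2 := by ring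
    rw [this, Complex.sin_add_pi_div_two]
  rw [e1, e2] at d1
  rw [e3, e4] at d2
  have g1 : Gamma ((1 + w) / 2) ≠ 0 := Gne (by simp; linarith)
  have g2 : Gamma ((1 - w) / 2) ≠ 0 := Gne (by simp; linarith)
  have hcos : cos (Real.pi * w / 2) ≠ 0 := by
    intro h
    rw [h, div_zero] at d2
    exact (mul_ne_zero g1 g2) d2
  have hsq : ((√Real.pi : ℝ) : ℂ) = (Real.pi : ℂ) ^ (1 / 2 : ℂ) := by
    rw [Real.sqrt_eq_rpow, Complex.ofReal_cpow Real.pi_pos.le]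
    push_cast; rfl
  rw [hsq] at d1
  have e5 : (1 - (1 - w)) / 2 = w / 2 := by ring
  rw [e5]
  have e6 : (2 * Real.pi : ℂ) ^ (-w) = 2 ^ (-w) * (Real.pi : ℂ) ^ (-w) := by
    rw [show (2 * Real.pi : ℂ) = ((2:ℝ) : ℂ) * ((Real.pi : ℝ) : ℂ) by push_cast; rfl,
      Complex.mul_cpow_ofReal_nonneg (by norm_num) Real.pi_pos.le]
    push_cast; rfl
  have e7 : (2:ℂ) ^ (1 - w) = 2 * 2 ^ (-w) := by
    rw [sub_eq_add_neg, Complex.cpow_add _ _ two_ne_zero, Complex.cpow_one]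
  have e8 : (Real.pi : ℂ) ^ (1 - w - 1 / 2) * (Real.pi : ℂ) ^ (1 / 2 : ℂ) = Real.pi * (Real.pi : ℂ) ^ (-w) := by
    rw [← Complex.cpow_add _ _ hpi]
    have : (1 - w - 1 / 2 + 1 / 2 : ℂ) = 1 + -w := by ring
    rw [this, Complex.cpow_add _ _ hpi, Complex.cpow_one]
  have hph : (Real.pi : ℂ) ^ (1 / 2 : ℂ) ≠ 0 := by
    rw [Complex.cpow_ne_zero_iff]; left; exact hpi
  rw [e7] at d1
  rw [e6]
  rw [eq_div_iff hcos] at d2
  rw [div_eq_iff g2]
  refine mul_right_cancel₀ hph (mul_right_cancel₀ g1 ?_)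
  calc (Real.pi : ℂ) ^ (1 - w - 1 / 2) * Gamma (w / 2) * (Real.pi : ℂ) ^ (1 / 2 : ℂ) * Gamma ((1 + w) / 2)
      = ((Real.pi : ℂ) ^ (1 - w - 1 / 2) * (Real.pi : ℂ) ^ (1 / 2 : ℂ)) *
        (Gamma (w / 2) * Gamma ((1 + w) / 2)) := by ring
    _ = (Real.pi * (Real.pi : ℂ) ^ (-w)) * (Gamma w * (2 * 2 ^ (-w)) * (Real.pi : ℂ) ^ (1 / 2 : ℂ)) := by
        rw [e8, d1]
    _ = _ := by
        linear_combination (-(2 * 2 ^ (-w) * (Real.pi : ℂ) ^ (-w) * Gamma w * (Real.pi : ℂ) ^ (1 / 2 : ℂ))) * d2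

lemma one_add_pos (v : ℝ) : 0 < 1 + |v| := by positivity

/-- two sided bound for `X` -/
lemma XX_two : ∃ K : ℝ, 1 ≤ K ∧ ∀ σ v : ℝ, 1 / 2 ≤ σ → σ ≤ 3 / 4 →
    ‖XX ((σ : ℂ) + v * I)‖ ≤ K * (1 + |v|) ^ (σ - 1 / 2) ∧
    (1 + |v|) ^ (σ - 1 / 2) ≤ K * ‖XX ((σ : ℂ) + v * I)‖ := by
  have hne : ∀ s : ℂ, 0 < s.re → s.re < 1 → XX s ≠ 0 := by
    intro s h0 h1
    rw [← chi_XX h0 h1]
    have e : (1 - s) = 1 / 2 + (1 / 2 - s) := by ring
    rw [e]
    refine chi_ne ?_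
    rw [abs_lt]
    constructor <;> (simp; linarith)
  have hcomp : IsCompact ((fun p : ℝ × ℝ => ((p.1 : ℂ) + p.2 * I)) ''
      (Icc (1 / 2) (3 / 4) ×ˢ Icc (-24) 24)) :=
    (isCompact_Icc.prod isCompact_Icc).image (by fun_prop)
  have hcont : ContinuousOn XX ((fun p : ℝ × ℝ => ((p.1 : ℂ) + p.2 * I)) ''
      (Icc (1 / 2) (3 / 4) ×ˢ Icc (-24) 24)) := by
    rintro _ ⟨p, hp, rfl⟩
    refine (XX_diff ?_).continuousAt.continuousWithinAt
    have := hp.1.1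
    simp
    linarith
  have hcont' : ContinuousOn (fun s => (XX s)⁻¹) ((fun p : ℝ × ℝ => ((p.1 : ℂ) + p.2 * I)) ''
      (Icc (1 / 2) (3 / 4) ×ˢ Icc (-24) 24)) := by
    refine hcont.inv₀ ?_
    rintro _ ⟨p, hp, rfl⟩
    have := hp.1.1
    have := hp.1.2
    refine hne _ ?_ ?_ <;> (simp; linarith)
  obtain ⟨K1, hK1⟩ := hcomp.exists_bound_of_continuousOn hcont
  obtain ⟨K2, hK2⟩ := hcomp.exists_bound_of_continuousOn hcont'
  set K : ℝ := max (max K1 (25 * K2)) 50 with hK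
  have hK50 : 50 ≤ K := le_max_right _ _
  refine ⟨K, by linarith, ?_⟩
  have hpos : ∀ σ v : ℝ, 1 / 2 ≤ σ → σ ≤ 3 / 4 → 24 ≤ v →
      ‖XX ((σ : ℂ) + v * I)‖ ≤ K * (1 + |v|) ^ (σ - 1 / 2) ∧
      (1 + |v|) ^ (σ - 1 / 2) ≤ K * ‖XX ((σ : ℂ) + v * I)‖ := by
    intro σ v h1 h2 hv
    have hv0 : 0 < v := by linarith
    obtain ⟨e, he, h3⟩ := XX_asymp (c := 1) le_rfl h1 (by linarith) (by linarith : 4 * (1:ℝ) ^ 2 ≤ v)
    have he' : ‖e‖ ≤ 1 / 2 := by
      refine he.trans ?_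
      rw [div_le_div_iff₀ hv0 (by norm_num)]
      linarith
    have hpi := Real.pi_gt_three
    have hpi4 := Real.pi_le_four
    rw [h3, norm_mul, exp_Mx_norm hv0, abs_of_pos hv0]
    have h4 : ‖1 + e‖ ≤ 3 / 2 := by
      have := norm_add_le 1 e
      rw [norm_one] at this
      linarith
    have h5 : 1 / 2 ≤ ‖1 + e‖ := by
      have := norm_sub_norm_le (1:ℂ) (-e)
      rw [norm_one, norm_neg, sub_neg_eq_add] at this
      linarith
    have h6 : (v / (2 * Real.pi)) ^ (σ - 1 / 2) ≤ (1 + v) ^ (σ - 1 / 2) := by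
      refine Real.rpow_le_rpow (by positivity) ?_ (by linarith)
      rw [div_le_iff₀ (by positivity)]
      nlinarith
    have h7 : (1 + v) ^ (σ - 1 / 2) ≤ 25 * (v / (2 * Real.pi)) ^ (σ - 1 / 2) := by
      have h8 : 1 + v ≤ 25 * (v / (2 * Real.pi)) := by
        rw [← mul_div_assoc, le_div_iff₀ (by positivity)]
        nlinarith
      calc (1 + v) ^ (σ - 1 / 2) ≤ (25 * (v / (2 * Real.pi))) ^ (σ - 1 / 2) :=
            Real.rpow_le_rpow (by positivity) h8 (by linarith)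
        _ = 25 ^ (σ - 1 / 2) * (v / (2 * Real.pi)) ^ (σ - 1 / 2) :=
            Real.mul_rpow (by norm_num) (by positivity)
        _ ≤ 25 ^ (1:ℝ) * (v / (2 * Real.pi)) ^ (σ - 1 / 2) := by
            refine mul_le_mul_of_nonneg_right ?_ (by positivity)
            exact Real.rpow_le_rpow_of_exponent_le (by norm_num) (by linarith)
        _ = _ := by rw [Real.rpow_one]
    have h9 : 0 ≤ (v / (2 * Real.pi)) ^ (σ - 1 / 2) := by positivity
    constructor
    · calc _ ≤ (1 + v) ^ (σ - 1 / 2) * (3 / 2) := by gcongr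
        _ ≤ _ := by
          have : 0 ≤ (1 + v) ^ (σ - 1 / 2) := by positivity
          nlinarith
    · calc _ ≤ 25 * (v / (2 * Real.pi)) ^ (σ - 1 / 2) := h7
        _ = 50 * ((v / (2 * Real.pi)) ^ (σ - 1 / 2) * (1 / 2)) := by ring
        _ ≤ _ := by gcongr
  intro σ v h1 h2
  rcases le_total 24 |v| with hv | hv
  · rcases le_total 0 v with h0 | h0
    · rw [abs_of_nonneg h0] at hv
      exact hpos σ v h1 h2 hv
    · rw [abs_of_nonpos h0] at hv
      have h5 := hpos σ (-v) h1 h2 hv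
      rw [abs_neg] at h5
      have h3 : ((σ : ℂ) + v * I) = (starRingEnd ℂ) ((σ : ℂ) + (-v : ℝ) * I) := by
        simp
      rw [h3, XX_conj, Complex.norm_conj]
      exact h5
  · have hmem : ((σ : ℂ) + v * I) ∈ ((fun p : ℝ × ℝ => ((p.1 : ℂ) + p.2 * I)) ''
      (Icc (1 / 2) (3 / 4) ×ˢ Icc (-24) 24)) := ⟨(σ, v), ⟨⟨h1, h2⟩, abs_le.1 hv⟩, rfl⟩
    have k1 := hK1 _ hmem
    have k2 := hK2 _ hmem
    have h1v : (1:ℝ) ≤ (1 + |v|) ^ (σ - 1 / 2) :=
      Real.one_le_rpow (by have := abs_nonneg v; linarith) (by linarith)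
    have h2v : (1 + |v|) ^ (σ - 1 / 2) ≤ 25 := by
      calc _ ≤ (25:ℝ) ^ (σ - 1 / 2) := Real.rpow_le_rpow (by positivity) (by linarith) (by linarith)
        _ ≤ (25:ℝ) ^ (1:ℝ) := Real.rpow_le_rpow_of_exponent_le (by norm_num) (by linarith)
        _ = 25 := Real.rpow_one _
    constructor
    · calc _ ≤ K1 := k1
        _ ≤ K * 1 := by rw [mul_one]; exact (le_max_left _ _).trans (le_max_left _ _)
        _ ≤ _ := by gcongr
    · have hX : XX ((σ : ℂ) + v * I) ≠ 0 := by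
        refine hne _ ?_ ?_ <;> (simp; linarith)
      have hXp : 0 < ‖XX ((σ : ℂ) + v * I)‖ := norm_pos_iff.2 hX
      rw [norm_inv] at k2
      have h6 : 1 ≤ K2 * ‖XX ((σ : ℂ) + v * I)‖ := by
        rw [inv_le_iff_one_le_mul₀ hXp] at k2
        linarith
      calc _ ≤ (25:ℝ) * 1 := by rw [mul_one]; exact h2v
        _ ≤ 25 * (K2 * ‖XX ((σ : ℂ) + v * I)‖) := by gcongr
        _ = (25 * K2) * ‖XX ((σ : ℂ) + v * I)‖ := by ring
        _ ≤ _ := by
          gcongr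
          exact (le_max_right _ _).trans (le_max_left _ _)

/-- bound for `χ` around the critical line -/
lemma chi_le : ∃ K : ℝ, 1 ≤ K ∧ ∀ x u : ℝ, |x| ≤ 1 / 4 →
    ‖chi (1 / 2 + (x + u * I))‖ ≤ K * (1 + |u|) ^ (-x) := by
  obtain ⟨K, hK, h⟩ := XX_two
  refine ⟨K, hK, fun x u hx => ?_⟩
  have hx' := abs_le.1 hx
  have hre : |((x : ℂ) + u * I).re| < 1 / 2 := by simp; linarith
  rcases le_total x 0 with h0 | h0
  · have e : (1 / 2 + ((x : ℂ) + u * I)) = 1 - (((1 / 2 - x : ℝ) : ℂ) + ((-u : ℝ) : ℂ) * I) := by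
      push_cast; ring
    rw [e, chi_XX (by simp; linarith) (by simp; linarith)]
    have h1 := (h (1 / 2 - x) (-u) (by linarith) (by linarith)).1
    rw [abs_neg] at h1
    have e2 : 1 / 2 - x - 1 / 2 = -x := by ring
    rw [e2] at h1
    exact h1
  · have h1 := (h (1 / 2 + x) u (by linarith) (by linarith)).2
    have e2 : 1 / 2 + x - 1 / 2 = x := by ring
    rw [e2] at h1
    have e3 : chi (1 / 2 + ((x : ℂ) + u * I)) = (XX (((1 / 2 + x : ℝ) : ℂ) + u * I))⁻¹ := by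
      rw [← inv_inj, inv_inv, chi_inv hre, ← chi_XX (by simp; linarith) (by simp; linarith)]
      congr 1
      push_cast; ring
    rw [e3, norm_inv, Real.rpow_neg (one_add_pos u).le, ← div_eq_mul_inv,
      inv_eq_one_div, div_le_div_iff₀ ?_ (by positivity)]
    · linarith
    · refine norm_pos_iff.2 ?_
      intro h0
      rw [h0] at e3
      exact chi_ne hre (by rw [e3]; simp)

/-- Peetre's inequality -/
lemma peetre (t x : ℝ) : 1 + |t + x| ≤ (1 + |x|) * (1 + |t|) := by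
  have h1 := abs_add_le t x
  have := mul_nonneg (abs_nonneg t) (abs_nonneg x)
  nlinarith

lemma peetre_pow {t x r : ℝ} (hr : |r| ≤ 1) : (1 + |t + x|) ^ r ≤ (1 + |x|) * (1 + |t|) ^ r := by
  have hr' := abs_le.1 hr
  have h1 := peetre t x
  have h2 := peetre (t + x) (-x)
  rw [abs_neg, add_neg_cancel_right] at h2
  have ht := one_add_pos t
  have hx := one_add_pos x
  have htx := one_add_pos (t + x)
  have hx1 : 1 ≤ 1 + |x| := by have := abs_nonneg x; linarith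
  rcases le_total 0 r with h0 | h0
  · calc (1 + |t + x|) ^ r ≤ ((1 + |x|) * (1 + |t|)) ^ r := Real.rpow_le_rpow htx.le h1 h0
      _ = (1 + |x|) ^ r * (1 + |t|) ^ r := Real.mul_rpow hx.le ht.le
      _ ≤ (1 + |x|) ^ (1:ℝ) * (1 + |t|) ^ r := by
          refine mul_le_mul_of_nonneg_right ?_ (by positivity)
          exact Real.rpow_le_rpow_of_exponent_le hx1 hr'.2
      _ = _ := by rw [Real.rpow_one]
  · calc (1 + |t + x|) ^ r = ((1 + |t + x|) ^ (-r))⁻¹ := by rw [← Real.rpow_neg htx.le, neg_neg]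
      _ ≤ (((1 + |t|) / (1 + |x|)) ^ (-r))⁻¹ := by
          refine inv_anti₀ (by positivity) ?_
          refine Real.rpow_le_rpow (by positivity) ?_ (by linarith)
          rw [div_le_iff₀ hx]
          linarith
      _ = (1 + |x|) ^ (-r) * (1 + |t|) ^ r := by
          rw [Real.div_rpow ht.le hx.le, inv_div, Real.rpow_neg ht.le, div_inv_eq_mul]
      _ ≤ (1 + |x|) ^ (1:ℝ) * (1 + |t|) ^ r := by
          refine mul_le_mul_of_nonneg_right ?_ (by positivity)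
          exact Real.rpow_le_rpow_of_exponent_le hx1 (by linarith)
      _ = _ := by rw [Real.rpow_one]

end

end Pool.Agent.TH612.CF
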