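import Pool.Agent.TH612.CF.Loc

set_option autoImplicit false

/-! The Dirichlet series of the arithmetic factor times the zeta factors. -/

namespace Pool.Agent.TH612.CF

open Complex Filter Topology MeasureTheory Set
open Pool.Agent.W182.KO

noncomputable section

/-- coefficient of the diagonal series -/
def dg {k : ℕ} (a b : Fin k → ℂ) (n : ℕ) : ℂ :=
  tau (fun j => I * b j) n * tau (fun j => -(I * a j)) n * (n : ℂ)⁻¹

lemma dg_zero {k : ℕ} (a b : Fin k → ℂ) : dg a b 0 = 0 := by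
  unfold dg; rw [tau_zero]; simp

lemma dg_le (k : ℕ) {δ : ℝ} (hδ : 0 < δ) : ∃ D : ℝ, 0 ≤ D ∧ ∀ (a b : Fin k → ℂ),
    (∀ j, (a j).im ≤ -δ ∧ δ ≤ (b j).im) → ∀ n : ℕ, ‖dg a b n‖ ≤ D * (n : ℝ) ^ (-(1 + δ)) := by
  obtain ⟨C, hC0, hC⟩ := Pool.Agent.H510R2.divisor_bound (δ / (2 * (k + 1))) (by positivity)
  refine ⟨C ^ (2 * k), by positivity, fun a b h n => ?_⟩
  rcases Nat.eq_zero_or_pos n with hn | hn
  · subst hn; rw [dg_zero, norm_zero]; positivity
  have hn0 : (0:ℝ) < n := by exact_mod_cast hn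
  have h1 : ‖tau (fun j => I * b j) n‖ ≤ (n.divisors.card : ℝ) ^ k * (n : ℝ) ^ (-δ) :=
    tau_le (fun j => by simp; exact (h j).2) n
  have h2 : ‖tau (fun j => -(I * a j)) n‖ ≤ (n.divisors.card : ℝ) ^ k * (n : ℝ) ^ (-δ) :=
    tau_le (fun j => by simp; exact (h j).1) n
  have h3 : (n.divisors.card : ℝ) ^ k ≤ (C * (n : ℝ) ^ (δ / (2 * (k + 1)))) ^ k := by
    gcongr
    exact hC n hn
  have h4 : (C * (n : ℝ) ^ (δ / (2 * (k + 1)))) ^ k ≤ C ^ k * (n : ℝ) ^ (δ / 2) := by
    rw [mul_pow, ← Real.rpow_natCast ((n:ℝ) ^ _), ← Real.rpow_mul hn0.le]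
    refine mul_le_mul_of_nonneg_left ?_ (by positivity)
    refine Real.rpow_le_rpow_of_exponent_le (by exact_mod_cast hn) ?_
    rw [div_mul_eq_mul_div, div_le_div_iff₀ (by positivity) (by norm_num)]
    nlinarith
  unfold dg
  rw [norm_mul, norm_mul, norm_inv, Complex.norm_natCast]
  calc _ ≤ ((C ^ k * (n : ℝ) ^ (δ / 2)) * (n : ℝ) ^ (-δ)) * ((C ^ k * (n : ℝ) ^ (δ / 2)) *
        (n : ℝ) ^ (-δ)) * (n : ℝ)⁻¹ := by
        have h5 := h3.trans h4
        have h6 : 0 ≤ (n : ℝ) ^ (-δ) := by positivity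
        have h7 := h1.trans (mul_le_mul_of_nonneg_right h5 h6)
        have h8 := h2.trans (mul_le_mul_of_nonneg_right h5 h6)
        gcongr
    _ = C ^ (2 * k) * ((n : ℝ) ^ (δ / 2) * (n : ℝ) ^ (-δ) * ((n : ℝ) ^ (δ / 2) * (n : ℝ) ^ (-δ)) *
          (n : ℝ) ^ (-1 : ℝ)) := by
        rw [Real.rpow_neg_one, two_mul, pow_add]; ring
    _ = _ := by
        rw [← Real.rpow_add hn0, ← Real.rpow_add hn0, ← Real.rpow_add hn0]
        congr 2
        ring

lemma dg_summable {k : ℕ} {a b : Fin k → ℂ} {δ : ℝ} (hδ : 0 < δ)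
    (h : ∀ j, (a j).im ≤ -δ ∧ δ ≤ (b j).im) : Summable (fun n => ‖dg a b n‖) := by
  obtain ⟨D, hD, hd⟩ := dg_le k hδ
  exact Summable.of_nonneg_of_le (fun _ => norm_nonneg _) (hd a b h)
    ((Real.summable_nat_rpow.2 (by linarith)).mul_left D)

theorem zh_eq {k : ℕ} {a b : Fin k → ℂ} {c δ : ℝ} (hc : c < 1 / 4) (hT : Tb c a b) (hδ : 0 < δ)
    (h : ∀ j, (a j).im ≤ -δ ∧ δ ≤ (b j).im) :
    FH a b * ∏ j, ∏ l, riemannZeta (1 + I * a j - I * b l) = ∑' n, dg a b n := by
  have hs := dg_summable hδ h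
  have hE := EulerProduct.eulerProduct_hasProd (f := dg a b) ?_ ?_ hs (dg_zero a b)
  · have hF := lh_hasProd hc hT
    have hre : ∀ j l, 1 < (1 + I * a j - I * b l).re := by
      intro j l
      have e : (1 + I * a j - I * b l).re = 1 - (a j).im + (b l).im := by simp; ring
      rw [e]
      have h1 := (h j).1
      have h2 := (h l).2
      linarith
    have hZ : HasProd (fun p : Nat.Primes => ∏ j, ∏ l,
        (1 - (p : ℂ) ^ (-(1 + I * a j - I * b l)))⁻¹)
        (∏ j, ∏ l, riemannZeta (1 + I * a j - I * b l)) :=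
      hasProd_prod fun j _ => hasProd_prod fun l _ => riemannZeta_eulerProduct_hasProd (hre j l)
    have hFZ := hF.mul hZ
    refine hFZ.unique ?_
    refine hE.congr_fun ?_
    intro p
    unfold lh
    have hne : ∀ j l, (1 - (p : ℂ) ^ (-(1 + I * a j - I * b l))) ≠ 0 := by
      intro j l h0
      have h1 : (p : ℂ) ^ (-(1 + I * a j - I * b l)) = 1 := by linear_combination -h0
      have h2 := congrArg norm h1
      rw [Complex.norm_natCast_cpow_of_pos p.2.pos, norm_one, neg_re] at h2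
      have h3 : ((p : ℕ) : ℝ) ^ (-(1 + I * a j - I * b l).re) < 1 :=
        Real.rpow_lt_one_of_one_lt_of_neg (by exact_mod_cast p.2.one_lt) (by linarith [hre j l])
      linarith
    have e1 : (∏ j, ∏ l, (1 - (p : ℂ) ^ (-(1 + I * a j - I * b l)))) *
        (∏ j, ∏ l, (1 - (p : ℂ) ^ (-(1 + I * a j - I * b l)))⁻¹) = 1 := by
      rw [← Finset.prod_mul_distrib]
      refine Finset.prod_eq_one fun j _ => ?_
      rw [← Finset.prod_mul_distrib]
      exact Finset.prod_eq_one fun l _ => mul_inv_cancel₀ (hne j l)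
    have e2 : ∑' m : ℕ, lt a b p m = ∑' e : ℕ, dg a b (p ^ e) := by
      refine tsum_congr fun m => ?_
      unfold lt dg
      push_cast
      rfl
    rw [← e2]
    linear_combination (∑' m : ℕ, lt a b p m) * e1
  · unfold dg; rw [tau_one, tau_one]; simp
  · intro m n hmn
    unfold dg
    have h1 := (tauA_mult (fun j => I * b j)).map_mul_of_coprime hmn
    have h2 := (tauA_mult (fun j => -(I * a j))).map_mul_of_coprime hmn
    simp only [tauA_apply] at h1 h2
    rw [h1, h2]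
    push_cast
    rw [mul_inv]
    ring

end

end Pool.Agent.TH612.CF
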