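import Pool.Agent.TH612.CF.Rem

set_option autoImplicit false

/-! Boundedness and analytic continuation of the sum of the swap terms along a real line. -/

namespace Pool.Agent.TH612.CF

open Complex Filter Topology MeasureTheory Set Asymptotics
open Pool.Agent.W182.KO

noncomputable section

variable {k : ℕ}

/-- a real line of shifts -/
def LR (g v : Fin k ⊕ Fin k → ℝ) (s : ℂ) : Fin k ⊕ Fin k → ℂ :=
  Ln (fun i => (g i : ℂ)) (fun i => (v i : ℂ)) s

lemma LR_apply (g v : Fin k ⊕ Fin k → ℝ) (s : ℂ) (i : Fin k ⊕ Fin k) :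
    LR g v s i = g i - I * v i * (s - 1 / 2) := rfl

lemma LR_im (g v : Fin k ⊕ Fin k → ℝ) (s : ℂ) (i : Fin k ⊕ Fin k) :
    (LR g v s i).im = -(v i * (s.re - 1 / 2)) := by
  rw [LR_apply]
  simp

lemma LR_re (g v : Fin k ⊕ Fin k → ℝ) (s : ℂ) (i : Fin k ⊕ Fin k) :
    (LR g v s i).re = g i + v i * s.im := by
  rw [LR_apply]
  simp

/-- sign vectors -/
def Sgn (v : Fin k ⊕ Fin k → ℝ) : Prop := ∀ i, v i = 1 ∨ v i = -1

lemma Sgn.abs {v : Fin k ⊕ Fin k → ℝ} (h : Sgn v) (i : Fin k ⊕ Fin k) : |v i| = 1 := by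
  rcases h i with h | h <;> rw [h] <;> simp

lemma LR_im_abs {g v : Fin k ⊕ Fin k → ℝ} (hv : Sgn v) (s : ℂ) (i : Fin k ⊕ Fin k) :
    |(LR g v s i).im| = |s.re - 1 / 2| := by
  rw [LR_im, abs_neg, abs_mul, hv.abs, one_mul]

/-- the singular set -/
def SS (g v : Fin k ⊕ Fin k → ℝ) : Set ℂ := {s | ∃ p q, v p ≠ v q ∧ LR g v s p = LR g v s q}

/-- no coincidences within a class -/
def CI (g v : Fin k ⊕ Fin k → ℝ) : Prop := ∀ p q, v p = v q → g p = g q → p = q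

/-- no coincidences of differences -/
def GE (g v : Fin k ⊕ Fin k → ℝ) : Prop := ∀ p q p' q', v p = 1 → v q = -1 → v p' = 1 → v q' = -1 →
  g p - g q = g p' - g q' → p = p' ∧ q = q'

lemma LR_eq_same {g v : Fin k ⊕ Fin k → ℝ} {s : ℂ} {p q : Fin k ⊕ Fin k} (h : v p = v q)
    (h1 : LR g v s p = LR g v s q) : g p = g q := by
  rw [LR_apply, LR_apply, h] at h1
  have : (g p : ℂ) = g q := by linear_combination h1
  exact_mod_cast this

lemma LR_eq_opp {g v : Fin k ⊕ Fin k → ℝ} {s : ℂ} {p q : Fin k ⊕ Fin k} (hp : v p = 1)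
    (hq : v q = -1) (h1 : LR g v s p = LR g v s q) : s.re = 1 / 2 ∧ s.im = -((g p - g q) / 2) := by
  have e1 := congrArg Complex.im h1
  have e2 := congrArg Complex.re h1
  rw [LR_im, LR_im, hp, hq] at e1
  rw [LR_re, LR_re, hp, hq] at e2
  constructor <;> linarith

lemma opp_cases {v : Fin k ⊕ Fin k → ℝ} (hv : Sgn v) {p q : Fin k ⊕ Fin k} (h : v p ≠ v q) :
    (v p = 1 ∧ v q = -1) ∨ (v p = -1 ∧ v q = 1) := by
  rcases hv p with h1 | h1 <;> rcases hv q with h2 | h2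
  · exact absurd (h1.trans h2.symm) h
  · exact Or.inl ⟨h1, h2⟩
  · exact Or.inr ⟨h1, h2⟩
  · exact absurd (h1.trans h2.symm) h

lemma SS_re {g v : Fin k ⊕ Fin k → ℝ} (hv : Sgn v) {s : ℂ} (hs : s ∈ SS g v) :
    s.re = 1 / 2 ∧ ∃ p q, s.im = (g p - g q) / 2 := by
  obtain ⟨p, q, hpq, h⟩ := hs
  rcases opp_cases hv hpq with ⟨h1, h2⟩ | ⟨h1, h2⟩
  · obtain ⟨e1, e2⟩ := LR_eq_opp h1 h2 h
    exact ⟨e1, q, p, by rw [e2]; ring⟩
  · obtain ⟨e1, e2⟩ := LR_eq_opp h2 h1 h.symm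
    exact ⟨e1, p, q, by rw [e2]; ring⟩

lemma SS_finite {g v : Fin k ⊕ Fin k → ℝ} (hv : Sgn v) : (SS g v).Finite := by
  have h : (Set.range fun x : (Fin k ⊕ Fin k) × (Fin k ⊕ Fin k) =>
      ((1 / 2 : ℝ) : ℂ) + (((g x.1 - g x.2) / 2 : ℝ) : ℂ) * I).Finite := Set.finite_range _
  refine h.subset fun s hs => ?_
  obtain ⟨h1, p, q, h2⟩ := SS_re hv hs
  refine ⟨(p, q), ?_⟩
  simp only
  rw [← h1, ← h2, Complex.re_add_im]

lemma LR_inj {g v : Fin k ⊕ Fin k → ℝ} (hi : CI g v) {s : ℂ} (hs : s ∉ SS g v) {p q : Fin k ⊕ Fin k}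
    (hpq : p ≠ q) : LR g v s p ≠ LR g v s q := by
  intro h
  by_cases hv : v p = v q
  · exact hpq (hi p q hv (LR_eq_same hv h))
  · exact hs ⟨p, q, hv, h⟩

/-- the open strip -/
def St (c : ℝ) : Set ℂ := {s : ℂ | |s.re - 1 / 2| < c}

lemma St_open (c : ℝ) : IsOpen (St c) := isOpen_lt (by fun_prop) continuous_const

lemma inl_ne_inr (π : Equiv.Perm (Fin k ⊕ Fin k)) (j l : Fin k) :
    π (Sum.inl j) ≠ π (Sum.inr l) := fun h => by
  have := π.injective h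
  simp at this

lemma Rt_LR_diff {g v : Fin k ⊕ Fin k → ℝ} (hv : Sgn v) (hi : CI g v) {c : ℝ} (hc : c < 1 / 4) (t : ℝ)
    (π : Equiv.Perm (Fin k ⊕ Fin k)) :
    DifferentiableOn ℂ (fun s => Rt t (LR g v s) π) (St c \ SS g v) :=
  Rt_diff (Γ := LR g v) ((St_open c).sdiff (SS_finite hv).isClosed) hc t
    (fun i => (Ln_diff _ _ i).differentiableOn)
    (fun s hs i => by rw [LR_im_abs hv]; exact le_of_lt hs.1) π
    (fun s hs j l => LR_inj hi hs.2 (inl_ne_inr π j l))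

lemma Qs_LR_diff {g v : Fin k ⊕ Fin k → ℝ} (hv : Sgn v) (hi : CI g v) {c : ℝ} (hc : c < 1 / 4) (t : ℝ) :
    DifferentiableOn ℂ (fun s => Qs t (LR g v s)) (St c \ SS g v) := by
  unfold Qs
  exact DifferentiableOn.fun_sum fun π _ => Rt_LR_diff hv hi hc t π

lemma Qs_res {g v : Fin k ⊕ Fin k → ℝ} (hv : Sgn v) (hi : CI g v) (hG : GE g v) {c : ℝ} (hc0 : 0 < c)
    (hc : c < 1 / 4) (t : ℝ) {s0 : ℂ} (hs0 : s0 ∈ SS g v) :
    Tendsto (fun s => (s - s0) * Qs t (LR g v s)) (𝓝[≠] s0) (𝓝 0) := by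
  obtain ⟨p, q, hpq, h⟩ := hs0
  have hre : s0.re = 1 / 2 := (SS_re hv ⟨p, q, hpq, h⟩).1
  refine res_zero hc t (fun i => ?_) h (by exact_mod_cast hpq) ?_
  · have := LR_im_abs (g := g) hv s0 i
    unfold LR at this
    rw [this, hre, sub_self, abs_zero]
    exact hc0
  · intro p' q' h'
    by_cases hv' : v p' = v q'
    · exact Or.inl (hi p' q' hv' (LR_eq_same hv' h'))
    · right
      rcases opp_cases hv hpq with ⟨a1, a2⟩ | ⟨a1, a2⟩ <;>
        rcases opp_cases hv hv' with ⟨b1, b2⟩ | ⟨b1, b2⟩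
      · have e1 := (LR_eq_opp a1 a2 h).2
        have e2 := (LR_eq_opp b1 b2 h').2
        obtain ⟨r1, r2⟩ := hG p q p' q' a1 a2 b1 b2 (by linarith)
        exact Or.inl ⟨r1.symm, r2.symm⟩
      · have e1 := (LR_eq_opp a1 a2 h).2
        have e2 := (LR_eq_opp b2 b1 h'.symm).2
        obtain ⟨r1, r2⟩ := hG p q q' p' a1 a2 b2 b1 (by linarith)
        exact Or.inr ⟨r2.symm, r1.symm⟩
      · have e1 := (LR_eq_opp a2 a1 h.symm).2
        have e2 := (LR_eq_opp b1 b2 h').2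
        obtain ⟨r1, r2⟩ := hG q p p' q' a2 a1 b1 b2 (by linarith)
        exact Or.inr ⟨r1.symm, r2.symm⟩
      · have e1 := (LR_eq_opp a2 a1 h.symm).2
        have e2 := (LR_eq_opp b2 b1 h'.symm).2
        obtain ⟨r1, r2⟩ := hG q p q' p' a2 a1 b2 b1 (by linarith)
        exact Or.inl ⟨r2.symm, r1.symm⟩

/-- a perturbation direction -/
lemma exists_dir (v : Fin k ⊕ Fin k → ℝ) : ∃ w : Fin k ⊕ Fin k → ℝ, Function.Injective w ∧ GE w v := by
  set e : Fin k ⊕ Fin k → ℕ := fun i => (Fintype.equivFin (Fin k ⊕ Fin k) i : ℕ) with he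
  have hei : Function.Injective e := fun a b h => by
    simpa [he, Fin.val_inj] using h
  refine ⟨fun i => ((2 ^ e i : ℕ) : ℝ), fun a b h => ?_, ?_⟩
  · have h0 : ((2 ^ e a : ℕ) : ℝ) = ((2 ^ e b : ℕ) : ℝ) := h
    have h1 : (2 ^ e a : ℕ) = 2 ^ e b := by exact_mod_cast h0
    exact hei (Nat.pow_right_injective le_rfl h1)
  · intro p q p' q' hp hq hp' hq' h
    have hne : ∀ a b : Fin k ⊕ Fin k, v a = 1 → v b = -1 → e a ≠ e b := by
      intro a b ha hb hab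
      have := hei hab
      rw [this, hb] at ha
      norm_num at ha
    have h1 : (2 ^ e p + 2 ^ e q' : ℕ) = 2 ^ e p' + 2 ^ e q := by
      have : ((2 ^ e p : ℕ) : ℝ) + ((2 ^ e q' : ℕ) : ℝ) = ((2 ^ e p' : ℕ) : ℝ) + ((2 ^ e q : ℕ) : ℝ) := by
        linarith
      exact_mod_cast this
    have h2 : ({e p, e q'} : Finset ℕ) = {e p', e q} := by
      refine Finset.geomSum_injective le_rfl ?_
      simp only
      rw [Finset.sum_pair (hne p q' hp hq'), Finset.sum_pair (hne p' q hp' hq)]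
      exact h1
    have h3 : e p ∈ ({e p', e q} : Finset ℕ) := by rw [← h2]; simp
    rw [Finset.mem_insert, Finset.mem_singleton] at h3
    rcases h3 with h3 | h3
    · have h4 : (2 ^ e q' : ℕ) = 2 ^ e q := by rw [h3] at h1; omega
      exact ⟨hei h3, (hei (Nat.pow_right_injective le_rfl h4)).symm⟩
    · exact absurd h3 (hne p q hp hq)

/-- the perturbed base point -/
def gp (g w : Fin k ⊕ Fin k → ℝ) (u : ℝ) : Fin k ⊕ Fin k → ℝ := fun i => g i + u * w i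

lemma ev_ne (u0 : ℝ) : ∀ᶠ u in 𝓝[≠] (0:ℝ), u ≠ u0 := by
  rcases eq_or_ne u0 0 with h | h
  · subst h; exact self_mem_nhdsWithin
  · exact nhdsWithin_le_nhds (isOpen_ne.mem_nhds h.symm)

lemma ev_GE {g v w : Fin k ⊕ Fin k → ℝ} (hw : GE w v) : ∀ᶠ u in 𝓝[≠] (0:ℝ), GE (gp g w u) v := by
  have key : ∀ x : (Fin k ⊕ Fin k) × (Fin k ⊕ Fin k) × (Fin k ⊕ Fin k) × (Fin k ⊕ Fin k),
      ∀ᶠ u in 𝓝[≠] (0:ℝ), v x.1 = 1 → v x.2.1 = -1 → v x.2.2.1 = 1 → v x.2.2.2 = -1 →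
      gp g w u x.1 - gp g w u x.2.1 = gp g w u x.2.2.1 - gp g w u x.2.2.2 →
      x.1 = x.2.2.1 ∧ x.2.1 = x.2.2.2 := by
    rintro ⟨p, q, p', q'⟩
    by_cases hd : w p - w q = w p' - w q'
    · refine Eventually.of_forall fun u h1 h2 h3 h4 _ => hw p q p' q' h1 h2 h3 h4 hd
    · filter_upwards [ev_ne (-((g p - g q) - (g p' - g q')) / ((w p - w q) - (w p' - w q')))] with
        u hu _ _ _ _ h5
      exfalso
      refine hu ?_
      rw [eq_div_iff (sub_ne_zero.2 hd)]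
      simp only [gp] at h5
      linarith
  have h2 := eventually_all.2 key
  filter_upwards [h2] with u hu p q p' q'
  exact hu (p, q, p', q')

lemma ev_CI {g v w : Fin k ⊕ Fin k → ℝ} (hi : CI g v) : ∀ᶠ u in 𝓝 (0:ℝ), CI (gp g w u) v := by
  have key : ∀ x : (Fin k ⊕ Fin k) × (Fin k ⊕ Fin k),
      ∀ᶠ u in 𝓝 (0:ℝ), v x.1 = v x.2 → gp g w u x.1 = gp g w u x.2 → x.1 = x.2 := by
    rintro ⟨p, q⟩
    by_cases hpq : p = q
    · exact Eventually.of_forall fun u _ _ => hpq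
    by_cases hv : v p = v q
    · have hg : g p ≠ g q := fun h => hpq (hi p q hv h)
      have hc : Continuous (fun u : ℝ => gp g w u p - gp g w u q) := by unfold gp; fun_prop
      have h0 : (fun u : ℝ => gp g w u p - gp g w u q) 0 ≠ 0 := by
        simp only [gp, zero_mul, add_zero]
        exact sub_ne_zero.2 hg
      filter_upwards [hc.continuousAt.eventually_ne h0] with u hu _ h2
      exact absurd (sub_eq_zero.2 h2) hu
    · exact Eventually.of_forall fun u h _ => absurd h hv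
  have h2 := eventually_all.2 key
  filter_upwards [h2] with u hu p q
  exact hu (p, q)

/-- continuity in all the parameters -/
lemma Qs_joint (g v w : Fin k ⊕ Fin k → ℝ) {c : ℝ} (hc : c < 1 / 4) :
    ContinuousOn (fun x : ℝ × ℝ × ℂ => Qs x.1 (LR (gp g w x.2.1) v x.2.2))
      {x | (∀ i, |(LR (gp g w x.2.1) v x.2.2 i).im| < c) ∧
        ∀ y : (Fin k ⊕ Fin k) × (Fin k ⊕ Fin k), y.1 ≠ y.2 →
          LR (gp g w x.2.1) v x.2.2 y.1 ≠ LR (gp g w x.2.1) v x.2.2 y.2} ∧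
    IsOpen {x : ℝ × ℝ × ℂ | (∀ i, |(LR (gp g w x.2.1) v x.2.2 i).im| < c) ∧
        ∀ y : (Fin k ⊕ Fin k) × (Fin k ⊕ Fin k), y.1 ≠ y.2 →
          LR (gp g w x.2.1) v x.2.2 y.1 ≠ LR (gp g w x.2.1) v x.2.2 y.2} := by
  have hcont : ∀ i, Continuous (fun x : ℝ × ℝ × ℂ => LR (gp g w x.2.1) v x.2.2 i) := by
    intro i
    simp only [LR_apply, gp]
    fun_prop
  have hopen : IsOpen {x : ℝ × ℝ × ℂ | (∀ i, |(LR (gp g w x.2.1) v x.2.2 i).im| < c) ∧
        ∀ y : (Fin k ⊕ Fin k) × (Fin k ⊕ Fin k), y.1 ≠ y.2 →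
          LR (gp g w x.2.1) v x.2.2 y.1 ≠ LR (gp g w x.2.1) v x.2.2 y.2} := by
    rw [ofPred_and]
    refine IsOpen.inter ?_ ?_
    · rw [ofPred_forall]
      exact isOpen_iInter_of_finite fun i =>
        isOpen_lt (continuous_abs.comp (Complex.continuous_im.comp (hcont i))) continuous_const
    · rw [ofPred_forall]
      refine isOpen_iInter_of_finite fun y => ?_
      by_cases hy : y.1 = y.2
      · have : {x : ℝ × ℝ × ℂ | y.1 ≠ y.2 → LR (gp g w x.2.1) v x.2.2 y.1 ≠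
            LR (gp g w x.2.1) v x.2.2 y.2} = univ := by
          ext x; simp [hy]
        rw [this]; exact isOpen_univ
      · have : {x : ℝ × ℝ × ℂ | y.1 ≠ y.2 → LR (gp g w x.2.1) v x.2.2 y.1 ≠
            LR (gp g w x.2.1) v x.2.2 y.2} = {x : ℝ × ℝ × ℂ | LR (gp g w x.2.1) v x.2.2 y.1 ≠
            LR (gp g w x.2.1) v x.2.2 y.2} := by
          ext x; simp [hy]
        rw [this]
        exact isOpen_ne_fun (hcont _) (hcont _)
  refine ⟨?_, hopen⟩
  unfold Qs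
  refine continuousOn_finsetSum _ fun π _ => ?_
  refine Rt_cont (T := fun x : ℝ × ℝ × ℂ => x.1) (Γ := fun x => LR (gp g w x.2.1) v x.2.2) hopen hc
    (by fun_prop) (fun i => (hcont i).continuousOn) (fun x hx i => (hx.1 i).le) π
    (fun x hx j l => hx.2 (π (Sum.inl j), π (Sum.inr l)) (inl_ne_inr π j l))

lemma gp_zero (g w : Fin k ⊕ Fin k → ℝ) : gp g w 0 = g := by
  funext i; simp [gp]

/-- **uniform boundedness in compact boxes** -/
theorem Q_bdd {g v : Fin k ⊕ Fin k → ℝ} (hv : Sgn v) (hi : CI g v) {c r : ℝ} (hc : c < 1 / 4)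
    (hr0 : 0 < r) (hrc : r < c) (T Y : ℝ) :
    ∃ C : ℝ, ∀ t ∈ Icc 0 T, ∀ s : ℂ, |s.re - 1 / 2| ≤ r → |s.im| ≤ Y → s ∉ SS g v →
      ‖Qs t (LR g v s)‖ ≤ C := by
  obtain ⟨w, hwi, hwG⟩ := exists_dir v
  obtain ⟨hcont, hopen⟩ := Qs_joint g v w hc
  obtain ⟨u1, hu1, hCI⟩ := Metric.eventually_nhds_iff.1 (ev_CI (w := w) hi)
  set u0 : ℝ := min (u1 / 2) 1 with hu0
  have hu0p : 0 < u0 := lt_min (by linarith) one_pos
  have hCI' : ∀ u : ℝ, |u| ≤ u0 → CI (gp g w u) v := fun u hu => hCI (by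
    rw [Real.dist_eq, sub_zero]
    have := min_le_left (u1 / 2) 1
    linarith)
  set M : ℝ := ∑ i, (|g i| + |w i|) with hM
  have hM0 : 0 ≤ M := Finset.sum_nonneg fun i _ => by positivity
  have hgM : ∀ u : ℝ, |u| ≤ u0 → ∀ i, |gp g w u i| ≤ M := by
    intro u hu i
    have h1 : |g i| + |w i| ≤ M := by
      rw [hM]
      exact Finset.single_le_sum (f := fun i => |g i| + |w i|) (fun j _ => by positivity)
        (Finset.mem_univ i)
    have h2 : |gp g w u i| ≤ |g i| + |u| * |w i| := by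
      unfold gp
      refine (abs_add_le _ _).trans ?_
      rw [abs_mul]
    have h3 : |u| * |w i| ≤ 1 * |w i| := by
      have : |u| ≤ 1 := hu.trans (min_le_right _ _)
      gcongr
    linarith
  set Y' : ℝ := |Y| + M + 1 with hY'
  have hY'0 : 0 < Y' := by have := abs_nonneg Y; linarith
  -- no singularities on the frontier
  have hfr : ∀ u : ℝ, |u| ≤ u0 → ∀ s : ℂ, (|s.re - 1 / 2| = r ∨ |s.im| = Y') → s ∉ SS (gp g w u) v := by
    intro u hu s hs hmem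
    obtain ⟨h1, p, q, h2⟩ := SS_re hv hmem
    rcases hs with hs | hs
    · rw [h1, sub_self, abs_zero] at hs
      linarith
    · rw [h2] at hs
      have h3 := hgM u hu p
      have h4 := hgM u hu q
      have h5 : |(gp g w u p - gp g w u q) / 2| ≤ M := by
        rw [abs_div, abs_two]
        have := abs_sub (gp g w u p) (gp g w u q)
        linarith
      have := abs_nonneg Y
      linarith
  set F : Set ℂ := {s : ℂ | |s.re - 1 / 2| ≤ r ∧ |s.im| ≤ Y' ∧ (|s.re - 1 / 2| = r ∨ |s.im| = Y')} with hF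
  have hFc : IsCompact F := by
    have h1 : IsCompact (Icc (1 / 2 - r) (1 / 2 + r) ×ℂ Icc (-Y') Y') :=
      isCompact_Icc.reProdIm isCompact_Icc
    refine h1.of_isClosed_subset ?_ fun s hs => ?_
    · have k1 : IsClosed {s : ℂ | |s.re - 1 / 2| ≤ r} := isClosed_le (by fun_prop) continuous_const
      have k2 : IsClosed {s : ℂ | |s.im| ≤ Y'} := isClosed_le (by fun_prop) continuous_const
      have k3 : IsClosed {s : ℂ | |s.re - 1 / 2| = r} := isClosed_eq (by fun_prop) continuous_const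
      have k4 : IsClosed {s : ℂ | |s.im| = Y'} := isClosed_eq (by fun_prop) continuous_const
      exact k1.inter (k2.inter (k3.union k4))
    · rw [mem_reProdIm]
      have := abs_le.1 hs.1
      exact ⟨⟨by linarith, by linarith⟩, abs_le.1 hs.2.1⟩
  have hK : IsCompact (Icc 0 T ×ˢ (Icc (-u0) u0 ×ˢ F)) := isCompact_Icc.prod (isCompact_Icc.prod hFc)
  have hKU : (Icc 0 T ×ˢ (Icc (-u0) u0 ×ˢ F)) ⊆ {x : ℝ × ℝ × ℂ |
      (∀ i, |(LR (gp g w x.2.1) v x.2.2 i).im| < c) ∧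
        ∀ y : (Fin k ⊕ Fin k) × (Fin k ⊕ Fin k), y.1 ≠ y.2 →
          LR (gp g w x.2.1) v x.2.2 y.1 ≠ LR (gp g w x.2.1) v x.2.2 y.2} := by
    rintro ⟨t, u, s⟩ ⟨_, h2, h3⟩
    have hu : |u| ≤ u0 := abs_le.2 h2
    refine ⟨fun i => ?_, fun y hy => ?_⟩
    · simp only
      rw [LR_im_abs hv]
      exact h3.1.trans_lt hrc
    · exact LR_inj (hCI' u hu) (hfr u hu s h3.2.2) hy
  obtain ⟨C, hC⟩ := hK.exists_bound_of_continuousOn (hcont.mono hKU)
  refine ⟨C, fun t ht s h1 h2 h3 => ?_⟩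
  -- the perturbed bound
  have hpert : ∀ u : ℝ, |u| ≤ u0 → GE (gp g w u) v → s ∉ SS (gp g w u) v →
      ‖Qs t (LR (gp g w u) v s)‖ ≤ C := by
    intro u hu hG hs
    refine max_fin (f := fun s => Qs t (LR (gp g w u) v s)) (S := SS (gp g w u) v) hr0 hrc hY'0
      (SS_finite hv) (Qs_LR_diff hv (hCI' u hu) hc t) (fun s0 hs0 _ =>
        Qs_res hv (hCI' u hu) hG (hr0.trans hrc) hc t hs0) (fun z g1 g2 g3 => ?_) h1
      (h2.trans (by have := le_abs_self Y; linarith)) hs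
    exact ⟨hfr u hu z g3, hC (t, u, z) ⟨ht, abs_le.1 hu, g1, g2, g3⟩⟩
  have hmem0 : (t, (0:ℝ), s) ∈ {x : ℝ × ℝ × ℂ |
      (∀ i, |(LR (gp g w x.2.1) v x.2.2 i).im| < c) ∧
        ∀ y : (Fin k ⊕ Fin k) × (Fin k ⊕ Fin k), y.1 ≠ y.2 →
          LR (gp g w x.2.1) v x.2.2 y.1 ≠ LR (gp g w x.2.1) v x.2.2 y.2} := by
    refine ⟨fun i => ?_, fun y hy => ?_⟩
    · simp only
      rw [LR_im_abs hv]
      exact h1.trans_lt hrc
    · simp only [gp_zero]
      exact LR_inj hi h3 hy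
  have hca := hcont.continuousAt (hopen.mem_nhds hmem0)
  have hmap : Tendsto (fun u : ℝ => (t, u, s)) (𝓝[≠] 0) (𝓝 (t, (0:ℝ), s)) :=
    (Continuous.tendsto (by fun_prop) (0:ℝ)).mono_left nhdsWithin_le_nhds
  have hlim := hca.tendsto.comp hmap
  simp only [gp_zero] at hlim
  refine le_of_tendsto hlim.norm ?_
  have hball : ∀ᶠ u in 𝓝[≠] (0:ℝ), |u| ≤ u0 := by
    refine nhdsWithin_le_nhds ?_
    filter_upwards [Metric.ball_mem_nhds (0:ℝ) hu0p] with u hu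
    rw [Metric.mem_ball, Real.dist_eq, sub_zero] at hu
    exact hu.le
  have hopen' := hmap.eventually (hopen.mem_nhds hmem0)
  filter_upwards [hball, ev_GE (g := g) hwG, hopen'] with u hu hG ho
  refine hpert u hu hG ?_
  rintro ⟨p, q, hpq, hh⟩
  exact ho.2 (p, q) (fun h => hpq (by simp only at h; rw [h])) hh

/-- the analytic continuation -/
theorem Q_ext {g v : Fin k ⊕ Fin k → ℝ} (hv : Sgn v) (hi : CI g v) {c : ℝ} (hc0 : 0 < c)
    (hc : c < 1 / 4) {t : ℝ} (ht : 0 ≤ t) :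
    ∃ F : ℂ → ℂ, DifferentiableOn ℂ F (St c) ∧ ∀ s ∈ St c \ SS g v, F s = Qs t (LR g v s) := by
  refine ext_fin (St_open c) (SS_finite hv) (Qs_LR_diff hv hi hc t) fun s0 hs0 _ => ?_
  obtain ⟨C, hC⟩ := Q_bdd hv hi hc (r := c / 2) (by linarith) (by linarith) t (|s0.im| + 1)
  have hre := (SS_re hv hs0).1
  have hev : ∀ᶠ s in 𝓝[≠] s0, ‖Qs t (LR g v s)‖ ≤ C := by
    have e1 : ∀ᶠ s in 𝓝 s0, |s.re - 1 / 2| < c / 2 := by
      refine (St_open (c / 2)).mem_nhds ?_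
      unfold St
      simp only [mem_ofPred_eq]
      rw [hre, sub_self, abs_zero]
      linarith
    have e2 : ∀ᶠ s in 𝓝 s0, |s.im| < |s0.im| + 1 := by
      refine (isOpen_lt (by fun_prop) continuous_const).mem_nhds ?_
      simp
    have e3 : ∀ᶠ s in 𝓝[≠] s0, s ∉ SS g v := by
      have h1 : (SS g v \ {s0})ᶜ ∈ 𝓝 s0 :=
        ((SS_finite hv).subset sdiff_subset).isClosed.isOpen_compl.mem_nhds (fun h => h.2 rfl)
      filter_upwards [nhdsWithin_le_nhds h1, self_mem_nhdsWithin] with s h2 h3 h4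
      exact h2 ⟨h4, h3⟩
    filter_upwards [nhdsWithin_le_nhds e1, nhdsWithin_le_nhds e2, e3] with s h1 h2 h3
    exact hC t ⟨ht, le_rfl⟩ s h1.le h2.le h3
  have h1 : Tendsto (fun s : ℂ => s - s0) (𝓝[≠] s0) (𝓝 0) := by
    have : Tendsto (fun s : ℂ => s - s0) (𝓝 s0) (𝓝 (s0 - s0)) := Continuous.tendsto (by fun_prop) s0
    rw [sub_self] at this
    exact this.mono_left nhdsWithin_le_nhds
  exact h1.zero_mul_isBoundedUnder_le ⟨C, eventually_map.2 hev⟩

end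

end Pool.Agent.TH612.CF
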