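import Pool.Agent.TH612.CF.Zp

set_option autoImplicit false

/-! The diagonal model in closed form. -/

namespace Pool.Agent.TH612.CF

open Complex Filter Topology MeasureTheory Set
open scoped ContDiff
open Pool.Agent.W182.KO

noncomputable section

variable {ψ : ℝ → ℂ} {ξ1 κ : ℝ}

theorem Kd_closed (m : ℕ) (S : ℝ) (h : TF ξ1 ψ) (hκ : 0 < κ) {k : ℕ} (z w : Fin k → ℝ) {T : ℝ}
    (hT : Real.exp 1 ≤ T) :
    ∫ t in (1:ℝ)..T, Kd m S ψ z w κ (Real.log T) t =
      ((2 * Real.pi / Real.log T : ℝ) : ℂ) * ∑' n : ℕ,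
        tau (fun j => -(z j * I)) n * tau (fun j => -(w j * I)) n / n *
          ∫ t in (1:ℝ)..T, gg ψ m S (Real.log T) (2 * Real.log n / Real.log T) t := by
  have hT0 : 0 < T := (Real.exp_pos 1).trans_le hT
  have hT1 : 1 ≤ T := by have := Real.add_one_le_exp 1; linarith
  have hL : 1 ≤ Real.log T := by rwa [Real.le_log_iff_exp_le hT0]
  obtain ⟨N, hN⟩ := exists_nat_ge (T ^ (ξ1 + 2 * m))
  have hKs := fun (t : ℝ) (h1 : 1 ≤ t) (h2 : t ≤ T) => Kd_sum (κ := κ) m S h hκ z w hT hN h1 h2
  set A := tau (fun j : Fin k => -(z j * I)) with hA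
  set B := tau (fun j : Fin k => -(w j * I)) with hB
  set L := Real.log T with hLd
  have hL0 : 0 < L := by linarith
  have hti : ∀ x, IntervalIntegrable (tm ψ m S A B L x) volume 1 T := fun x =>
    ContinuousOn.intervalIntegrable (by rw [uIcc_of_le hT1]; exact tm_cont h m S A B L x T)
  have e1 : (∫ t in (1:ℝ)..T, Kd m S ψ z w κ L t) =
      ∑ n ∈ Finset.range (N + 1), ∫ t in (1:ℝ)..T, tm ψ m S A B L (n, n) t := by
    rw [← intervalIntegral.integral_finsetSum fun x _ => hti (x, x)]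
    refine intervalIntegral.integral_congr fun t ht => ?_
    rw [uIcc_of_le hT1] at ht
    exact hKs t ht.1 ht.2
  have hTη : Real.log (T ^ (ξ1 + 2 * m)) = (ξ1 + 2 * m) * L := by rw [Real.log_rpow hT0]
  have e3 : ∀ n : ℕ, ∫ t in (1:ℝ)..T, tm ψ m S A B L (n, n) t = ((2 * Real.pi / L : ℝ) : ℂ) *
      (A n * B n / n * ∫ t in (1:ℝ)..T, gg ψ m S L (2 * Real.log n / L) t) := by
    intro n
    rw [← mul_assoc, ← intervalIntegral.integral_const_mul]
    refine intervalIntegral.integral_congr fun t _ => ?_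
    exact tm_diag n (tau_zero _)
  rw [e1, tsum_eq_sum (s := Finset.range (N + 1))]
  · simp only [e3]
    rw [Finset.mul_sum]
  · intro n hn
    rw [Finset.mem_range] at hn
    have : ∫ t in (1:ℝ)..T, gg ψ m S L (2 * Real.log n / L) t = ∫ t in (1:ℝ)..T, 0 := by
      refine intervalIntegral.integral_congr fun t ht => ?_
      rw [uIcc_of_le hT1] at ht
      refine gg_zero h hL0 le_rfl ht.1 ht.2 ?_
      rw [lt_div_iff₀ hL0, ← hTη]
      have h1 : Real.log (T ^ (ξ1 + 2 * m)) < Real.log n := by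
        refine Real.log_lt_log (by positivity) (hN.trans_lt ?_)
        exact_mod_cast (by omega : N < n)
      have := Real.log_natCast_nonneg n
      linarith
    rw [this, intervalIntegral.integral_zero, mul_zero]

end

end Pool.Agent.TH612.CF
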