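import Pool.Agent.TH612.CF.Tau

set_option autoImplicit false

/-! The local factors of the arithmetic factor. -/

namespace Pool.Agent.TH612.CF

open Complex Filter Topology MeasureTheory Set
open Pool.Agent.W182.KO

noncomputable section

/-- term of the local series at `s = 1/2` -/
def lt {k : ℕ} (a b : Fin k → ℂ) (p m : ℕ) : ℂ :=
  tau (fun j => I * b j) (p ^ m) * tau (fun j => -(I * a j)) (p ^ m) * ((p : ℂ) ^ m)⁻¹

/-- local factor at `s = 1/2` -/
def lh {k : ℕ} (a b : Fin k → ℂ) (p : ℕ) : ℂ :=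
  (∏ j, ∏ l, (1 - (p : ℂ) ^ (-(1 + I * a j - I * b l)))) * ∑' m : ℕ, lt a b p m

/-- the tube -/
def Tb {k : ℕ} (c : ℝ) (a b : Fin k → ℂ) : Prop := ∀ j, |(a j).im| ≤ c ∧ |(b j).im| ≤ c

lemma Tb.a {k : ℕ} {c : ℝ} {a b : Fin k → ℂ} (h : Tb c a b) (j : Fin k) :
    (-(I * a j)).re ≤ c := by
  have := (h j).1
  have e : (-(I * a j)).re = (a j).im := by simp
  rw [e]
  exact (le_abs_self _).trans this

lemma Tb.b {k : ℕ} {c : ℝ} {a b : Fin k → ℂ} (h : Tb c a b) (j : Fin k) :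
    (I * b j).re ≤ c := by
  have := (h j).2
  have e : (I * b j).re = -(b j).im := by simp
  rw [e]
  exact (neg_le_abs _).trans this

lemma tau_pp_le {k : ℕ} {l : Fin k → ℂ} {c : ℝ} (hl : ∀ j, (l j).re ≤ c) {p : ℕ} (hp : p.Prime)
    (m : ℕ) : ‖tau l (p ^ m)‖ ≤ ((m : ℝ) + 1) ^ k * ((p : ℝ) ^ c) ^ m := by
  refine (tau_le hl (p ^ m)).trans (le_of_eq ?_)
  rw [Nat.divisors_prime_pow hp, Finset.card_map, Finset.card_range]
  have hp0 : (0:ℝ) < p := by exact_mod_cast hp.pos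
  congr 1
  · push_cast; ring
  · push_cast
    rw [← Real.rpow_natCast, ← Real.rpow_mul hp0.le, ← Real.rpow_natCast ((p:ℝ) ^ c),
      ← Real.rpow_mul hp0.le, mul_comm]

lemma lt_le {k : ℕ} {a b : Fin k → ℂ} {c : ℝ} (h : Tb c a b) {p : ℕ} (hp : p.Prime) (m : ℕ) :
    ‖lt a b p m‖ ≤ ((m : ℝ) + 1) ^ (2 * k) * ((p : ℝ) ^ (2 * c - 1)) ^ m := by
  have hp0 : (0:ℝ) < p := by exact_mod_cast hp.pos
  unfold lt
  rw [norm_mul, norm_mul, norm_inv, norm_pow, Complex.norm_natCast]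
  have h1 := tau_pp_le h.b hp m
  have h2 := tau_pp_le h.a hp m
  calc _ ≤ (((m : ℝ) + 1) ^ k * ((p : ℝ) ^ c) ^ m) * (((m : ℝ) + 1) ^ k * ((p : ℝ) ^ c) ^ m) *
        ((p : ℝ) ^ m)⁻¹ := by gcongr
    _ = ((m : ℝ) + 1) ^ (2 * k) * ((p : ℝ) ^ c * (p : ℝ) ^ c * (p : ℝ)⁻¹) ^ m := by
        rw [two_mul, pow_add, mul_pow, mul_pow, inv_pow]; ring
    _ = _ := by
        congr 2
        rw [← Real.rpow_neg_one (p:ℝ), ← Real.rpow_add hp0, ← Real.rpow_add hp0]
        congr 1; ring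

lemma lt_zero {k : ℕ} (a b : Fin k → ℂ) (p : ℕ) : lt a b p 0 = 1 := by
  unfold lt
  simp [tau_one]

lemma lt_one {k : ℕ} (a b : Fin k → ℂ) {p : ℕ} (hp : p.Prime) :
    lt a b p 1 = ∑ x : Fin k × Fin k, (p : ℂ) ^ (-(1 + I * a x.1 - I * b x.2)) := by
  unfold lt
  have hp0 : (p : ℂ) ≠ 0 := by exact_mod_cast hp.ne_zero
  rw [pow_one, tau_prime _ hp, tau_prime _ hp, pow_one, Fintype.sum_prod_type, mul_comm (∑ j, _),
    Finset.sum_mul_sum, Finset.sum_mul]
  refine Finset.sum_congr rfl fun i _ => ?_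
  rw [Finset.sum_mul]
  refine Finset.sum_congr rfl fun j _ => ?_
  have e : -(1 + I * a i - I * b j) = -(I * a i) + I * b j + -1 := by ring
  rw [e, Complex.cpow_add _ _ hp0, Complex.cpow_add _ _ hp0, Complex.cpow_neg_one]

lemma prod_one_sub_le {ι : Type*} (s : Finset ι) (w : ι → ℂ) {r : ℝ} (hr0 : 0 ≤ r) (hr : r ≤ 1)
    (hw : ∀ i ∈ s, ‖w i‖ ≤ r) :
    ‖∏ i ∈ s, (1 - w i) - 1‖ ≤ (2 ^ s.card - 1) * r ∧
      ‖∏ i ∈ s, (1 - w i) - (1 - ∑ i ∈ s, w i)‖ ≤ 2 ^ s.card * r ^ 2 := by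
  classical
  induction s using Finset.induction_on with
  | empty => simp; positivity
  | insert i s hi ih =>
    obtain ⟨h1, h2⟩ := ih fun j hj => hw j (Finset.mem_insert_of_mem hj)
    have h3 := hw i (Finset.mem_insert_self i s)
    rw [Finset.prod_insert hi, Finset.sum_insert hi, Finset.card_insert_of_notMem hi]
    set Q := ∏ i ∈ s, (1 - w i)
    set S := ∑ i ∈ s, w i
    set N : ℝ := 2 ^ s.card with hN
    have hN1 : 1 ≤ N := one_le_pow₀ (by norm_num)
    have e1 : (1 - w i) * Q - 1 = (Q - 1) - w i * (Q - 1) - w i := by ring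
    have e2 : (1 - w i) * Q - (1 - (w i + S)) = (Q - (1 - S)) - w i * (Q - 1) := by ring
    have h4 : ‖w i * (Q - 1)‖ ≤ r * ((N - 1) * r) := by
      rw [norm_mul]
      have : 0 ≤ (N - 1) * r := mul_nonneg (by linarith) hr0
      gcongr
    have h5 : (2:ℝ) ^ (s.card + 1) = 2 * N := by rw [pow_succ, hN]; ring
    rw [h5]
    have hr2 : r * r ≤ r := by nlinarith
    constructor
    · rw [e1]
      have k1 := norm_sub_le ((Q - 1) - w i * (Q - 1)) (w i)
      have k2 := norm_sub_le (Q - 1) (w i * (Q - 1))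
      nlinarith
    · rw [e2]
      have k2 := norm_sub_le (Q - (1 - S)) (w i * (Q - 1))
      nlinarith

/-- the local constant -/
def CL (k : ℕ) (c : ℝ) : ℝ := ∑' m : ℕ, ((m : ℝ) + 3) ^ (2 * k) * ((2 : ℝ) ^ (2 * c - 1)) ^ m

lemma CL_summable (k : ℕ) {c : ℝ} (hc : c < 1 / 2) :
    Summable (fun m : ℕ => ((m : ℝ) + 3) ^ (2 * k) * ((2 : ℝ) ^ (2 * c - 1)) ^ m) := by
  have h0 : (0:ℝ) < (2 : ℝ) ^ (2 * c - 1) := by positivity
  have h1 : (2 : ℝ) ^ (2 * c - 1) < 1 := Real.rpow_lt_one_of_one_lt_of_neg (by norm_num) (by linarith)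
  have h2 := summable_pow_mul_geometric_of_norm_lt_one (2 * k) (r := (2 : ℝ) ^ (2 * c - 1)) (by
    rw [Real.norm_of_nonneg h0.le]; exact h1)
  have h3 := ((summable_nat_add_iff 3).2 h2).mul_left (((2 : ℝ) ^ (2 * c - 1)) ^ 3)⁻¹
  refine h3.congr fun m => ?_
  push_cast
  rw [pow_add]
  field_simp

lemma CL_nonneg (k : ℕ) (c : ℝ) : 0 ≤ CL k c := tsum_nonneg fun m => by positivity

lemma rp_le {c : ℝ} (hc : c < 1 / 2) {p : ℕ} (hp : p.Prime) :
    (p : ℝ) ^ (2 * c - 1) ≤ (2 : ℝ) ^ (2 * c - 1) :=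
  Real.rpow_le_rpow_of_nonpos (by norm_num) (by exact_mod_cast hp.two_le) (by linarith)

lemma lt_summable_norm {k : ℕ} {a b : Fin k → ℂ} {c : ℝ} (hc : c < 1 / 2) (h : Tb c a b) {p : ℕ}
    (hp : p.Prime) : Summable (fun m => ‖lt a b p m‖) := by
  refine Summable.of_nonneg_of_le (fun _ => norm_nonneg _) (fun m => ?_) (CL_summable k hc)
  refine (lt_le h hp m).trans ?_
  have := rp_le hc hp
  gcongr
  linarith

lemma R_le {k : ℕ} {a b : Fin k → ℂ} {c : ℝ} (hc : c < 1 / 2) (h : Tb c a b) {p : ℕ}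
    (hp : p.Prime) : ‖∑' m : ℕ, lt a b p (m + 2)‖ ≤ CL k c * ((p : ℝ) ^ (2 * c - 1)) ^ 2 := by
  have h0 : (0:ℝ) ≤ (p : ℝ) ^ (2 * c - 1) := by positivity
  unfold CL
  rw [← tsum_mul_right]
  refine tsum_of_norm_bounded ((CL_summable k hc).mul_right _).hasSum fun m => ?_
  refine (lt_le h hp (m + 2)).trans ?_
  have := rp_le hc hp
  rw [pow_add]
  push_cast
  calc _ = ((m : ℝ) + 3) ^ (2 * k) * ((p : ℝ) ^ (2 * c - 1)) ^ m * ((p : ℝ) ^ (2 * c - 1)) ^ 2 := by
        ring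
    _ ≤ _ := by gcongr

/-- constant in the estimate of the local factors -/
def CK (k : ℕ) (c : ℝ) : ℝ :=
  CL k c * (1 + k ^ 2 + 2 ^ (k ^ 2)) + (k ^ 2 : ℝ) ^ 2 + 2 ^ (k ^ 2) * (1 + k ^ 2)

lemma CK_nonneg (k : ℕ) (c : ℝ) : 0 ≤ CK k c := by
  unfold CK
  have := CL_nonneg k c
  positivity

theorem lh_le {k : ℕ} {a b : Fin k → ℂ} {c : ℝ} (hc : c < 1 / 2) (h : Tb c a b) {p : ℕ}
    (hp : p.Prime) : ‖lh a b p - 1‖ ≤ CK k c * (p : ℝ) ^ (4 * c - 2) := by
  have hp0 : (0:ℝ) < p := by exact_mod_cast hp.pos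
  set r : ℝ := (p : ℝ) ^ (2 * c - 1) with hr
  have hr0 : 0 ≤ r := by positivity
  have hr1 : r ≤ 1 := Real.rpow_le_one_of_one_le_of_nonpos (by exact_mod_cast hp.one_lt.le) (by linarith)
  set w : Fin k × Fin k → ℂ := fun x => (p : ℂ) ^ (-(1 + I * a x.1 - I * b x.2)) with hw
  have hwr : ∀ x, ‖w x‖ ≤ r := by
    intro x
    rw [hw, hr]
    simp only
    rw [Complex.norm_natCast_cpow_of_pos hp.pos]
    refine Real.rpow_le_rpow_of_exponent_le (by exact_mod_cast hp.one_lt.le) ?_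
    have e : (-(1 + I * a x.1 - I * b x.2)).re = -1 + (-(I * a x.1)).re + (I * b x.2).re := by
      simp; ring
    rw [e]
    have := h.a x.1
    have := h.b x.2
    linarith
  obtain ⟨-, h2⟩ := prod_one_sub_le (Finset.univ : Finset (Fin k × Fin k)) w hr0 hr1 fun i _ => hwr i
  have hcard : (Finset.univ : Finset (Fin k × Fin k)).card = k ^ 2 := by
    rw [Finset.card_univ, Fintype.card_prod, Fintype.card_fin, sq]
  rw [hcard] at h2
  set S := ∑ x, w x with hS
  have hSn : ‖S‖ ≤ (k ^ 2 : ℝ) * r := by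
    rw [hS]
    refine (norm_sum_le_of_le _ fun i _ => hwr i).trans ?_
    rw [Finset.sum_const, hcard, nsmul_eq_mul]
    push_cast; rfl
  set E := ∏ x, (1 - w x) - (1 - S) with hE
  set R := ∑' m : ℕ, lt a b p (m + 2) with hR
  have hRn := R_le hc h hp
  rw [← hR, ← hr] at hRn
  have e0 : lh a b p = (1 - S + E) * (1 + S + R) := by
    unfold lh
    have e1 : ∑' m : ℕ, lt a b p m = 1 + S + R := by
      rw [← (lt_summable_norm hc h hp).of_norm.sum_add_tsum_nat_add 2, Finset.sum_range_succ,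
        Finset.sum_range_one, lt_zero, lt_one a b hp]
    rw [e1]
    have e2 : (∏ j, ∏ l, (1 - (p : ℂ) ^ (-(1 + I * a j - I * b l)))) = ∏ x, (1 - w x) := by
      rw [Fintype.prod_prod_type]
    rw [e2, hE]
    ring
  have e3 : lh a b p - 1 = R * (1 - S + E) - S * S + E * (1 + S) := by rw [e0]; ring
  have hr2 : (p : ℝ) ^ (4 * c - 2) = r ^ 2 := by
    rw [hr, ← Real.rpow_natCast, ← Real.rpow_mul hp0.le]
    congr 1; push_cast; ring
  rw [hr2, e3]
  have hr21 : r ^ 2 ≤ 1 := pow_le_one₀ hr0 hr1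
  have hk0 : (0:ℝ) ≤ k ^ 2 := by positivity
  have hCL := CL_nonneg k c
  have g1 : ‖1 - S + E‖ ≤ 1 + k ^ 2 + 2 ^ (k ^ 2) := by
    have k1 := norm_add_le (1 - S) E
    have k2 := norm_sub_le (1:ℂ) S
    rw [norm_one] at k2
    have k3 : (k ^ 2 : ℝ) * r ≤ k ^ 2 := by nlinarith
    have k4 : (2:ℝ) ^ (k ^ 2) * r ^ 2 ≤ 2 ^ (k ^ 2) := by
      have : (0:ℝ) < 2 ^ (k ^ 2) := by positivity
      nlinarith
    linarith
  have g2 : ‖1 + S‖ ≤ 1 + k ^ 2 := by
    have k2 := norm_add_le (1:ℂ) S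
    rw [norm_one] at k2
    have k3 : (k ^ 2 : ℝ) * r ≤ k ^ 2 := by nlinarith
    linarith
  have f1 : ‖R * (1 - S + E)‖ ≤ (CL k c * r ^ 2) * (1 + k ^ 2 + 2 ^ (k ^ 2)) := by
    rw [norm_mul]; gcongr
  have f2 : ‖S * S‖ ≤ ((k ^ 2 : ℝ) * r) * ((k ^ 2 : ℝ) * r) := by
    rw [norm_mul]; gcongr
  have f3 : ‖E * (1 + S)‖ ≤ (2 ^ (k ^ 2) * r ^ 2) * (1 + k ^ 2) := by
    rw [norm_mul]; gcongr
  have f4 := norm_add_le (R * (1 - S + E) - S * S) (E * (1 + S))
  have f5 := norm_sub_le (R * (1 - S + E)) (S * S)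
  unfold CK
  calc _ ≤ (CL k c * r ^ 2) * (1 + k ^ 2 + 2 ^ (k ^ 2)) + ((k ^ 2 : ℝ) * r) * ((k ^ 2 : ℝ) * r) +
        (2 ^ (k ^ 2) * r ^ 2) * (1 + k ^ 2) := by linarith
    _ = _ := by ring

lemma tau_diff {k : ℕ} {U : Set ℂ} {l : ℂ → Fin k → ℂ}
    (hl : ∀ j, DifferentiableOn ℂ (fun s => l s j) U) (n : ℕ) :
    DifferentiableOn ℂ (fun s => tau (l s) n) U := by
  unfold tau
  refine DifferentiableOn.fun_sum fun f hf => ?_
  intro s hs
  refine DifferentiableWithinAt.fun_finsetProd fun j _ => ?_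
  have h0 : (f j : ℂ) ≠ 0 := by
    exact_mod_cast Nat.ne_zero_of_mem_finMulAntidiag hf j
  exact (hl j s hs).const_cpow (Or.inl h0)

lemma tau_cont {k : ℕ} {X : Type*} [TopologicalSpace X] {U : Set X} {l : X → Fin k → ℂ}
    (hl : ∀ j, ContinuousOn (fun s => l s j) U) (n : ℕ) :
    ContinuousOn (fun s => tau (l s) n) U := by
  unfold tau
  refine continuousOn_finsetSum _ fun f hf => ?_
  refine continuousOn_finsetProd _ fun j _ => ?_
  have h0 : (f j : ℂ) ≠ 0 := by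
    exact_mod_cast Nat.ne_zero_of_mem_finMulAntidiag hf j
  exact (hl j).const_cpow (Or.inl h0)

lemma lh_diff {k : ℕ} {U : Set ℂ} (hU : IsOpen U) {a b : ℂ → Fin k → ℂ} {c : ℝ} (hc : c < 1 / 2)
    (ha : ∀ j, DifferentiableOn ℂ (fun s => a s j) U) (hb : ∀ j, DifferentiableOn ℂ (fun s => b s j) U)
    (hT : ∀ s ∈ U, Tb c (a s) (b s)) {p : ℕ} (hp : p.Prime) :
    DifferentiableOn ℂ (fun s => lh (a s) (b s) p) U := by
  have hp0 : (p : ℂ) ≠ 0 := by exact_mod_cast hp.ne_zero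
  unfold lh
  refine DifferentiableOn.mul ?_ ?_
  · intro s hs
    refine DifferentiableWithinAt.fun_finsetProd fun j _ => ?_
    refine DifferentiableWithinAt.fun_finsetProd fun l _ => ?_
    have h1 := ha j s hs
    have h2 := hb l s hs
    have h3 : DifferentiableWithinAt ℂ (fun s => -(1 + I * a s j - I * b s l)) U s := by fun_prop
    exact (h3.const_cpow (Or.inl hp0)).const_sub 1
  · refine differentiableOn_tsum_of_summable_norm (CL_summable k hc) (fun m => ?_) hU fun m s hs => ?_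
    · unfold lt
      refine ((tau_diff (fun j => (hb j).const_mul I) _).mul
        (tau_diff (fun j => ((ha j).const_mul I).neg) _)).mul_const _
    · refine (lt_le (hT s hs) hp m).trans ?_
      have := rp_le hc hp
      gcongr
      linarith

lemma lh_cont {k : ℕ} {X : Type*} [TopologicalSpace X] {U : Set X} {a b : X → Fin k → ℂ} {c : ℝ}
    (hc : c < 1 / 2) (ha : ∀ j, ContinuousOn (fun s => a s j) U)
    (hb : ∀ j, ContinuousOn (fun s => b s j) U)
    (hT : ∀ s ∈ U, Tb c (a s) (b s)) {p : ℕ} (hp : p.Prime) :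
    ContinuousOn (fun s => lh (a s) (b s) p) U := by
  have hp0 : (p : ℂ) ≠ 0 := by exact_mod_cast hp.ne_zero
  unfold lh
  refine ContinuousOn.mul ?_ ?_
  · refine continuousOn_finsetProd _ fun j _ => ?_
    refine continuousOn_finsetProd _ fun l _ => ?_
    have h1 := ha j
    have h2 := hb l
    have h3 : ContinuousOn (fun s => -(1 + I * a s j - I * b s l)) U := by fun_prop
    exact continuousOn_const.sub (h3.const_cpow (Or.inl hp0))
  · refine continuousOn_tsum (fun m => ?_) (CL_summable k hc) fun m s hs => ?_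
    · unfold lt
      exact ((tau_cont (fun j => continuousOn_const.mul (hb j)) _).mul
        (tau_cont (fun j => (continuousOn_const.mul (ha j)).neg) _)).mul continuousOn_const
    · refine (lt_le (hT s hs) hp m).trans ?_
      have := rp_le hc hp
      gcongr
      linarith

/-- the arithmetic factor at `s = 1/2` -/
def FH {k : ℕ} (a b : Fin k → ℂ) : ℂ := ∏' p : Nat.Primes, lh a b p

lemma primes_summable {c : ℝ} (hc : c < 1 / 4) (K : ℝ) :
    Summable (fun p : Nat.Primes => K * (p : ℝ) ^ (4 * c - 2)) := by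
  refine Summable.mul_left K ?_
  exact (Nat.Primes.summable_rpow).2 (by linarith)

lemma lh_hasProd {k : ℕ} {a b : Fin k → ℂ} {c : ℝ} (hc : c < 1 / 4) (h : Tb c a b) :
    HasProd (fun p : Nat.Primes => lh a b p) (FH a b) := by
  have h1 : Summable (fun p : Nat.Primes => ‖lh a b p - 1‖) :=
    Summable.of_nonneg_of_le (fun _ => norm_nonneg _)
      (fun p => lh_le (by linarith) h p.2) (primes_summable hc (CK k c))
  have h2 := multipliable_one_add_of_summable h1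
  have h3 : (fun p : Nat.Primes => lh a b p) = fun p : Nat.Primes => 1 + (lh a b p - 1) := by
    funext p; ring
  unfold FH
  rw [h3]
  exact h2.hasProd

/-- bound for the arithmetic factor -/
def BF (k : ℕ) (c : ℝ) : ℝ := Real.exp (∑' p : Nat.Primes, CK k c * (p : ℝ) ^ (4 * c - 2))

lemma FH_le {k : ℕ} {a b : Fin k → ℂ} {c : ℝ} (hc : c < 1 / 4) (h : Tb c a b) :
    ‖FH a b‖ ≤ BF k c := by
  have h1 := (lh_hasProd hc h).norm
  refine le_of_tendsto h1 (Eventually.of_forall fun s => ?_)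
  have h2 : ∏ p ∈ s, ‖lh a b p‖ ≤ Real.exp (∑ p ∈ s, CK k c * (p : ℝ) ^ (4 * c - 2)) := by
    rw [Real.exp_sum]
    refine Finset.prod_le_prod (fun _ _ => norm_nonneg _) fun p _ => ?_
    have h3 := lh_le (by linarith) h p.2
    have h4 : ‖lh a b p‖ ≤ ‖lh a b p - 1‖ + 1 := by
      have := norm_add_le (lh a b p - 1) 1
      rw [sub_add_cancel, norm_one] at this
      exact this
    have h5 := Real.add_one_le_exp (CK k c * (p : ℝ) ^ (4 * c - 2))
    linarith
  refine h2.trans ?_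
  unfold BF
  refine Real.exp_le_exp.2 ?_
  refine (primes_summable hc (CK k c)).sum_le_tsum _ fun p _ => ?_
  have := CK_nonneg k c
  positivity

lemma FH_diff {k : ℕ} {U : Set ℂ} (hU : IsOpen U) {a b : ℂ → Fin k → ℂ} {c : ℝ}
    (hc : c < 1 / 4)
    (ha : ∀ j, DifferentiableOn ℂ (fun s => a s j) U) (hb : ∀ j, DifferentiableOn ℂ (fun s => b s j) U)
    (hT : ∀ s ∈ U, Tb c (a s) (b s)) :
    DifferentiableOn ℂ (fun s => FH (a s) (b s)) U := by
  have h1 := Summable.hasProdLocallyUniformlyOn_one_add (f := fun (p : Nat.Primes) (s : ℂ) =>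
    lh (a s) (b s) p - 1) hU (primes_summable hc (CK k c))
    (Eventually.of_forall fun p s hs => lh_le (by linarith) (hT s hs) p.2)
    (fun p => ((lh_diff hU (by linarith) ha hb hT p.2).sub_const 1).continuousOn)
  have h2 := (hasProdLocallyUniformlyOn_iff_tendstoLocallyUniformlyOn.1 h1).differentiableOn
    (Eventually.of_forall fun s => ?_) hU
  · refine h2.congr fun s hs => ?_
    unfold FH
    refine tprod_congr fun p => ?_
    ring
  · refine DifferentiableOn.fun_finsetProd fun p _ => ?_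
    exact ((lh_diff hU (by linarith) ha hb hT p.2).sub_const 1).const_add 1

lemma FH_cont {k : ℕ} {X : Type*} [TopologicalSpace X] [LocallyCompactSpace X] {U : Set X}
    (hU : IsOpen U) {a b : X → Fin k → ℂ} {c : ℝ}
    (hc : c < 1 / 4) (ha : ∀ j, ContinuousOn (fun s => a s j) U)
    (hb : ∀ j, ContinuousOn (fun s => b s j) U)
    (hT : ∀ s ∈ U, Tb c (a s) (b s)) :
    ContinuousOn (fun s => FH (a s) (b s)) U := by
  have h1 := Summable.hasProdLocallyUniformlyOn_one_add (f := fun (p : Nat.Primes) (s : X) =>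
    lh (a s) (b s) p - 1) hU (primes_summable hc (CK k c))
    (Eventually.of_forall fun p s hs => lh_le (by linarith) (hT s hs) p.2)
    (fun p => ((lh_cont (by linarith) ha hb hT p.2).sub continuousOn_const))
  have h3 : ∀ s : Finset Nat.Primes,
      ContinuousOn (fun x => ∏ i ∈ s, (1 + (lh (a x) (b x) i - 1))) U := fun s =>
    continuousOn_finsetProd _ fun p _ =>
      continuousOn_const.add ((lh_cont (by linarith) ha hb hT p.2).sub continuousOn_const)
  have h2 := (hasProdLocallyUniformlyOn_iff_tendstoLocallyUniformlyOn.1 h1).continuousOn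
    (Eventually.of_forall h3).frequently
  refine h2.congr fun s hs => ?_
  unfold FH
  refine tprod_congr fun p => ?_
  ring

end

end Pool.Agent.TH612.CF
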