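import Pool.Agent.TH612.CF.QP

set_option autoImplicit false

/-! The model correlations: general number of swaps. -/

namespace Pool.Agent.TH612.CF

open Complex Filter Topology MeasureTheory Set
open scoped ContDiff
open Pool.Agent.W182.KO

noncomputable section

/-- the model correlation with `m` swaps -/
def Kn (m : ℕ) (S : ℝ) {k : ℕ} (ψ : ℝ → ℂ) (z w : Fin k → ℝ) (κ L t : ℝ) : ℂ :=
  ∫ y : ℝ, Pc ψ κ L y * (MM (1 + 4 * κ) m S y t *
    (ZP z ((1 + 4 * κ : ℝ) + (y + t : ℝ) * I) * ZP w ((1 + 4 * κ : ℝ) + (y - t : ℝ) * I)))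

lemma MM_split (m : ℕ) (S κ : ℝ) {L : ℝ} (hL : 0 < L) (y t : ℝ) : MM (1 + 4 * κ) m S y t =
      exp ((S * Real.log (t / (2 * Real.pi)) : ℝ) * I) *
      exp (((2 * m * Real.log (t / (2 * Real.pi)) / L : ℝ) : ℂ) *
        ((L * (1 + 4 * κ - 1 / 2) : ℝ) + L * y * I)) := by
  have hLc : (L : ℂ) ≠ 0 := by exact_mod_cast hL.ne'
  unfold MM
  rw [← exp_add]
  congr 1
  push_cast
  field_simp
  ring

lemma Kn_eq (m : ℕ) (S : ℝ) {k : ℕ} (ψ : ℝ → ℂ) (z w : Fin k → ℝ) (κ : ℝ) {L : ℝ} (hL : 0 < L) (t : ℝ) :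
    Kn m S ψ z w κ L t = exp ((S * Real.log (t / (2 * Real.pi)) : ℝ) * I) *
      K0 (fun ξ => ψ (ξ - 2 * m * Real.log (t / (2 * Real.pi)) / L)) (ZP z) (ZP w) (1 + 4 * κ) L t := by
  unfold Kn K0
  rw [← integral_const_mul]
  congr 1; funext y
  rw [P_shift, MM_split m S κ hL]
  unfold Pc
  ring

variable {ψ : ℝ → ℂ} {ξ1 κ : ℝ}

lemma Kn_sum (m : ℕ) (S : ℝ) (h : TF ξ1 ψ) (hκ : 0 < κ) {k : ℕ} (z w : Fin k → ℝ)
    {T : ℝ} (hT : Real.exp 1 ≤ T) {N : ℕ} (hN : T ^ (ξ1 + 2 * m) ≤ N) {t : ℝ} (h1 : 1 ≤ t)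
    (h2 : t ≤ T) :
    Kn m S ψ z w κ (Real.log T) t = ∑ x ∈ Finset.range (N + 1) ×ˢ Finset.range (N + 1),
      tm ψ m S (tau (fun j => -(z j * I))) (tau (fun j => -(w j * I)))
        (Real.log T) x t := by
  have hT0 : 0 < T := (Real.exp_pos 1).trans_le hT
  have hL : 1 ≤ Real.log T := by rwa [Real.le_log_iff_exp_le hT0]
  set L := Real.log T with hLd
  have hL0 : 0 < L := by linarith
  obtain ⟨D, hD, hd⟩ := tau_ptw k hκ
  have E1 := ZP_DD z hκ (hd z)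
  have E2 := ZP_DD w hκ (hd w)
  rw [Kn_eq m S ψ z w κ hL0]
  have hs := (K0_hasSum (h.shift (2 * m * Real.log (t / (2 * Real.pi)) / L)) hκ E1 E2 hL t).mul_left
    (exp ((S * Real.log (t / (2 * Real.pi)) : ℝ) * I))
  have hfe : ∀ x : ℕ × ℕ, exp ((S * Real.log (t / (2 * Real.pi)) : ℝ) * I) *
      (aa (fun ξ => ψ (ξ - 2 * m * Real.log (t / (2 * Real.pi)) / L))
        (tau (fun j => -(z j * I))) (tau (fun j => -(w j * I))) κ L x *
        exp ((-(Real.log x.1 - Real.log x.2) * t : ℝ) * I)) =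
      tm ψ m S (tau (fun j => -(z j * I))) (tau (fun j => -(w j * I))) L x t := by
    intro x
    rw [aa_eq (h.shift _) hκ E1 E2 hL]
    unfold tt tm cf gg
    ring
  simp only [hfe] at hs
  refine hs.unique (hasSum_sum_of_ne_finset_zero fun x hx => ?_)
  rw [Finset.mem_product, Finset.mem_range, Finset.mem_range, not_and_or] at hx
  rcases Nat.eq_zero_or_pos x.1 with hx1 | hx1
  · unfold tm cf; rw [hx1, tau_zero]; simp
  rcases Nat.eq_zero_or_pos x.2 with hx2 | hx2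
  · unfold tm cf; rw [hx2, tau_zero]; simp
  have hTη : Real.log (T ^ (ξ1 + 2 * m)) = (ξ1 + 2 * m) * L := by rw [Real.log_rpow hT0]
  have hbig : ∀ n : ℕ, ¬ n < N + 1 → (ξ1 + 2 * m) * L < Real.log n := by
    intro n hn
    rw [← hTη]
    refine Real.log_lt_log (by positivity) (hN.trans_lt ?_)
    exact_mod_cast (by omega : N < n)
  have hmx : ξ1 + 2 * m < (Real.log x.1 + Real.log x.2) / L := by
    rw [lt_div_iff₀ hL0]
    have l1 := Real.log_natCast_nonneg x.1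
    have l2 := Real.log_natCast_nonneg x.2
    rcases hx with hx | hx
    · have := hbig _ hx; linarith
    · have := hbig _ hx; linarith
  unfold tm
  rw [gg_zero h hL0 le_rfl h1 h2 hmx]
  simp

lemma off_bound2 (m : ℕ) (S : ℝ) (h : TF ξ1 ψ) (hκ : 0 < κ) {k : ℕ} (z w : Fin k → ℝ) :
    ∃ W : ℝ, 0 ≤ W ∧ ∀ T : ℝ, Real.exp 1 ≤ T → ∀ x : ℕ × ℕ, x.1 ≠ x.2 →
      ‖∫ t in (1:ℝ)..T, tm ψ m S (tau (fun j => -(z j * I)))
        (tau (fun j => -(w j * I))) (Real.log T) x t‖ ≤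
      W * T ^ ((ξ1 + 2 * m) * (1 / 2 + 4 * κ)) *
        (uu κ x.2 * uu κ (x.1 - x.2) + uu κ x.1 * uu κ (x.2 - x.1)) := by
  obtain ⟨D, hD, hd⟩ := tau_ptw k hκ
  obtain ⟨G, hG, hosc⟩ := osc h m S
  have hpi := Real.pi_pos
  refine ⟨2 * Real.pi * G * (D * D), by positivity, fun T hT x hx => ?_⟩
  have hT0 : 0 < T := (Real.exp_pos 1).trans_le hT
  have hT1 : 1 ≤ T := by have := Real.add_one_le_exp 1; linarith
  have hL : 1 ≤ Real.log T := by rwa [Real.le_log_iff_exp_le hT0]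
  have hTp : 0 < T ^ ((ξ1 + 2 * m) * (1 / 2 + 4 * κ)) := by positivity
  have hu : 0 ≤ uu κ x.2 * uu κ (x.1 - x.2) + uu κ x.1 * uu κ (x.2 - x.1) :=
    add_nonneg (mul_nonneg (uu_nonneg _ _) (uu_nonneg _ _))
      (mul_nonneg (uu_nonneg _ _) (uu_nonneg _ _))
  set L := Real.log T with hLd
  have hL0 : 0 < L := by linarith
  have hRn : 0 ≤ 2 * Real.pi * G * (D * D) * T ^ ((ξ1 + 2 * m) * (1 / 2 + 4 * κ)) *
        (uu κ x.2 * uu κ (x.1 - x.2) + uu κ x.1 * uu κ (x.2 - x.1)) := by positivity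
  rcases Nat.eq_zero_or_pos x.1 with hx1 | hx1
  · have : ∀ t, tm ψ m S (tau (fun j => -(z j * I)))
        (tau (fun j => -(w j * I))) L x t = 0 := by
      intro t; unfold tm cf; rw [hx1, tau_zero]; simp
    simp only [this, intervalIntegral.integral_zero, norm_zero]
    exact hRn
  rcases Nat.eq_zero_or_pos x.2 with hx2 | hx2
  · have : ∀ t, tm ψ m S (tau (fun j => -(z j * I)))
        (tau (fun j => -(w j * I))) L x t = 0 := by
      intro t; unfold tm cf; rw [hx2, tau_zero]; simp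
    simp only [this, intervalIntegral.integral_zero, norm_zero]
    exact hRn
  rcases lt_or_ge (ξ1 + 2 * m) ((Real.log x.1 + Real.log x.2) / L) with hm | hm
  · have : ∫ t in (1:ℝ)..T, tm ψ m S (tau (fun j => -(z j * I)))
        (tau (fun j => -(w j * I))) L x t = ∫ t in (1:ℝ)..T, 0 := by
      refine intervalIntegral.integral_congr fun t ht => ?_
      rw [uIcc_of_le hT1] at ht
      unfold tm
      rw [gg_zero h hL0 le_rfl ht.1 ht.2 hm]
      simp
    rw [this, intervalIntegral.integral_zero, norm_zero]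
    exact hRn
  have hm0 : (0:ℝ) < x.1 := by exact_mod_cast hx1
  have hn0 : (0:ℝ) < x.2 := by exact_mod_cast hx2
  have hlog : Real.log x.1 - Real.log x.2 ≠ 0 := by
    intro h0
    have := Real.log_injOn_pos (mem_Ioi.2 hm0) (mem_Ioi.2 hn0) (by linarith)
    exact hx (by exact_mod_cast this)
  have h1 := hosc L ((Real.log x.1 + Real.log x.2) / L) T (-(Real.log x.1 - Real.log x.2)) hL hT1
    le_rfl (neg_ne_zero.2 hlog)
  rw [abs_neg] at h1
  have h3 := off_le hκ hx1 hx2 hx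
  have h4 := hd z x.1
  have h5 := hd w x.2
  -- the weights
  have h6 : (x.1 : ℝ) ^ (-(1 / 2) : ℝ) * (x.2 : ℝ) ^ (-(1 / 2) : ℝ) ≤
      ((x.1 : ℝ) ^ (-(1 + 4 * κ)) * (x.2 : ℝ) ^ (-(1 + 4 * κ))) *
        T ^ ((ξ1 + 2 * m) * (1 / 2 + 4 * κ)) := by
    rw [Real.rpow_def_of_pos hm0, Real.rpow_def_of_pos hm0, Real.rpow_def_of_pos hn0,
      Real.rpow_def_of_pos hn0, Real.rpow_def_of_pos hT0, ← Real.exp_add, ← Real.exp_add,
      ← Real.exp_add]
    refine Real.exp_le_exp.2 ?_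
    rw [div_le_iff₀ hL0] at hm
    have : (Real.log x.1 + Real.log x.2) * (1 / 2 + 4 * κ) ≤ ((ξ1 + 2 * m) * L) * (1 / 2 + 4 * κ) := by
      gcongr
    rw [← hLd]
    linarith
  unfold tm
  rw [intervalIntegral.integral_const_mul, norm_mul]
  have hcf : ‖cf (tau (fun j => -(z j * I))) (tau (fun j => -(w j * I))) L x‖ =
      2 * Real.pi / L * (‖tau (fun j => -(z j * I)) x.1‖ * ‖tau (fun j => -(w j * I)) x.2‖ *
        ((x.1 : ℝ) ^ (-(1 / 2) : ℝ) * (x.2 : ℝ) ^ (-(1 / 2) : ℝ))) := by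
    unfold cf
    rw [norm_mul, norm_mul, norm_mul, Complex.norm_real, Complex.norm_real,
      Real.norm_of_nonneg (by positivity), Real.norm_of_nonneg (by positivity)]
  rw [hcf]
  have hab : 0 < |Real.log x.1 - Real.log x.2| := abs_pos.2 hlog
  calc _ ≤ 2 * Real.pi / L * ((D * (x.1:ℝ) ^ κ) * (D * (x.2:ℝ) ^ κ) *
        (((x.1 : ℝ) ^ (-(1 + 4 * κ)) * (x.2 : ℝ) ^ (-(1 + 4 * κ))) *
        T ^ ((ξ1 + 2 * m) * (1 / 2 + 4 * κ)))) * (G * L / |Real.log x.1 - Real.log x.2|) := by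
        gcongr
    _ = Real.pi * G * (D * D) * T ^ ((ξ1 + 2 * m) * (1 / 2 + 4 * κ)) *
        (((x.1:ℝ) ^ κ * (x.2:ℝ) ^ κ) * ((x.1 : ℝ) ^ (-(1 + 4 * κ)) * (x.2 : ℝ) ^ (-(1 + 4 * κ))) *
        (2 / |Real.log x.1 - Real.log x.2|)) := by
        field_simp
    _ ≤ Real.pi * G * (D * D) * T ^ ((ξ1 + 2 * m) * (1 / 2 + 4 * κ)) *
        (2 * (uu κ x.2 * uu κ (x.1 - x.2) + uu κ x.1 * uu κ (x.2 - x.1))) := by
        gcongr
    _ = _ := by ring

theorem Kn_int (m : ℕ) (S : ℝ) (h : TF ξ1 ψ) (hκ : 0 < κ) {k : ℕ} (z w : Fin k → ℝ) :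
    ∃ W : ℝ, 0 ≤ W ∧ ∀ T : ℝ, Real.exp 1 ≤ T →
      IntervalIntegrable (Kn m S ψ z w κ (Real.log T)) volume 1 T ∧
      ‖(∫ t in (1:ℝ)..T, Kn m S ψ z w κ (Real.log T) t) - ((2 * Real.pi / Real.log T : ℝ) : ℂ) *
        ∑' n : ℕ, tau (fun j => -(z j * I)) n * tau (fun j => -(w j * I)) n / n *
          ∫ t in (1:ℝ)..T, gg ψ m S (Real.log T) (2 * Real.log n / Real.log T) t‖ ≤
      W * T ^ ((ξ1 + 2 * m) * (1 / 2 + 4 * κ)) := by
  obtain ⟨W, hW, hoff⟩ := off_bound2 m S h hκ z w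
  have hsm : Summable (fun x : ℕ × ℕ => uu κ x.2 * uu κ (x.1 - x.2) + uu κ x.1 * uu κ (x.2 - x.1)) :=
    (uu_sub_summable hκ).add (uu_sub_summable' hκ)
  have hnn : ∀ x : ℕ × ℕ, 0 ≤ uu κ x.2 * uu κ (x.1 - x.2) + uu κ x.1 * uu κ (x.2 - x.1) :=
    fun x => add_nonneg (mul_nonneg (uu_nonneg _ _) (uu_nonneg _ _))
      (mul_nonneg (uu_nonneg _ _) (uu_nonneg _ _))
  refine ⟨W * ∑' x : ℕ × ℕ, (uu κ x.2 * uu κ (x.1 - x.2) + uu κ x.1 * uu κ (x.2 - x.1)),
    mul_nonneg hW (tsum_nonneg hnn), fun T hT => ?_⟩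
  have hT0 : 0 < T := (Real.exp_pos 1).trans_le hT
  have hT1 : 1 ≤ T := by have := Real.add_one_le_exp 1; linarith
  have hL : 1 ≤ Real.log T := by rwa [Real.le_log_iff_exp_le hT0]
  have hoffT := hoff T hT
  obtain ⟨N, hN⟩ := exists_nat_ge (T ^ (ξ1 + 2 * m))
  have hKs := fun (t : ℝ) (h1 : 1 ≤ t) (h2 : t ≤ T) => Kn_sum (κ := κ) m S h hκ z w hT hN h1 h2
  set A := tau (fun j : Fin k => -(z j * I)) with hA
  set B := tau (fun j : Fin k => -(w j * I)) with hB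
  set L := Real.log T with hLd
  have hL0 : 0 < L := by linarith
  set F := Finset.range (N + 1) ×ˢ Finset.range (N + 1) with hF
  have hti : ∀ x, IntervalIntegrable (tm ψ m S A B L x) volume 1 T := fun x =>
    ContinuousOn.intervalIntegrable (by rw [uIcc_of_le hT1]; exact tm_cont h m S A B L x T)
  have hci : ContinuousOn (Kn m S ψ z w κ L) (Icc 1 T) := by
    have : ContinuousOn (fun t => ∑ x ∈ F, tm ψ m S A B L x t) (Icc 1 T) :=
      continuousOn_finsetSum _ fun x _ => tm_cont h m S A B L x T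
    exact this.congr fun t ht => hKs t ht.1 ht.2
  refine ⟨ContinuousOn.intervalIntegrable (by rw [uIcc_of_le hT1]; exact hci), ?_⟩
  have e1 : (∫ t in (1:ℝ)..T, Kn m S ψ z w κ L t) = ∑ x ∈ F, ∫ t in (1:ℝ)..T, tm ψ m S A B L x t := by
    rw [← intervalIntegral.integral_finsetSum fun x _ => hti x]
    refine intervalIntegral.integral_congr fun t ht => ?_
    rw [uIcc_of_le hT1] at ht
    exact hKs t ht.1 ht.2
  have hTη : Real.log (T ^ (ξ1 + 2 * m)) = (ξ1 + 2 * m) * L := by rw [Real.log_rpow hT0]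
  have e2 : ((2 * Real.pi / L : ℝ) : ℂ) * ∑' n : ℕ, A n * B n / n *
      ∫ t in (1:ℝ)..T, gg ψ m S L (2 * Real.log n / L) t =
      ∑ n ∈ Finset.range (N + 1), ∫ t in (1:ℝ)..T, tm ψ m S A B L (n, n) t := by
    have e3 : ∀ n : ℕ, ∫ t in (1:ℝ)..T, tm ψ m S A B L (n, n) t = ((2 * Real.pi / L : ℝ) : ℂ) *
        (A n * B n / n * ∫ t in (1:ℝ)..T, gg ψ m S L (2 * Real.log n / L) t) := by
      intro n
      rw [← mul_assoc, ← intervalIntegral.integral_const_mul]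
      refine intervalIntegral.integral_congr fun t _ => ?_
      exact tm_diag n (tau_zero _)
    rw [tsum_eq_sum (s := Finset.range (N + 1))]
    · simp only [e3]
      rw [Finset.mul_sum]
    · intro n hn
      rw [Finset.mem_range] at hn
      have : ∫ t in (1:ℝ)..T, gg ψ m S L (2 * Real.log n / L) t = ∫ t in (1:ℝ)..T, 0 := by
        refine intervalIntegral.integral_congr fun t ht => ?_
        rw [uIcc_of_le hT1] at ht
        refine gg_zero h hL0 le_rfl ht.1 ht.2 ?_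
        rw [lt_div_iff₀ hL0, ← hTη]
        have h1 : Real.log (T ^ (ξ1 + 2 * m)) < Real.log n := by
          refine Real.log_lt_log (by positivity) (hN.trans_lt ?_)
          exact_mod_cast (by omega : N < n)
        have := Real.log_natCast_nonneg n
        linarith
      rw [this, intervalIntegral.integral_zero, mul_zero]
  rw [e1, e2]
  have e4 : ∑ x ∈ F, ∫ t in (1:ℝ)..T, tm ψ m S A B L x t =
      ∑ n ∈ Finset.range (N + 1), (∫ t in (1:ℝ)..T, tm ψ m S A B L (n, n) t) +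
      ∑ x ∈ F, (if x.1 = x.2 then 0 else ∫ t in (1:ℝ)..T, tm ψ m S A B L x t) := by
    have e5 : ∑ n ∈ Finset.range (N + 1), (∫ t in (1:ℝ)..T, tm ψ m S A B L (n, n) t) =
        ∑ x ∈ F, (if x.1 = x.2 then ∫ t in (1:ℝ)..T, tm ψ m S A B L x t else 0) := by
      rw [hF, Finset.sum_product]
      refine Finset.sum_congr rfl fun n hn => ?_
      simp only
      rw [Finset.sum_ite_eq, if_pos hn]
    rw [e5, ← Finset.sum_add_distrib]
    refine Finset.sum_congr rfl fun x _ => ?_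
    split_ifs <;> simp
  rw [e4, add_sub_cancel_left]
  calc _ ≤ ∑ x ∈ F, W * T ^ ((ξ1 + 2 * m) * (1 / 2 + 4 * κ)) *
        (uu κ x.2 * uu κ (x.1 - x.2) + uu κ x.1 * uu κ (x.2 - x.1)) := by
        refine norm_sum_le_of_le _ fun x _ => ?_
        have := hnn x
        split_ifs with hx
        · rw [norm_zero]; positivity
        · exact hoffT x hx
    _ = W * T ^ ((ξ1 + 2 * m) * (1 / 2 + 4 * κ)) *
        ∑ x ∈ F, (uu κ x.2 * uu κ (x.1 - x.2) + uu κ x.1 * uu κ (x.2 - x.1)) := by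
        rw [Finset.mul_sum]
    _ ≤ W * T ^ ((ξ1 + 2 * m) * (1 / 2 + 4 * κ)) *
        ∑' x : ℕ × ℕ, (uu κ x.2 * uu κ (x.1 - x.2) + uu κ x.1 * uu κ (x.2 - x.1)) := by
        gcongr
        exact hsm.sum_le_tsum F fun x _ => hnn x
    _ = _ := by ring

/-- the diagonal Dirichlet series -/
def Dz {k : ℕ} (z w : Fin k → ℝ) (s : ℂ) : ℂ :=
  ∑' n : ℕ, (tau (fun j => -(z j * I)) n * (n : ℂ) ^ (-s)) * (tau (fun j => -(w j * I)) n * (n : ℂ) ^ (-s))

/-- the diagonal model -/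
def Kd (m : ℕ) (S : ℝ) {k : ℕ} (ψ : ℝ → ℂ) (z w : Fin k → ℝ) (κ L t : ℝ) : ℂ :=
  ∫ y : ℝ, Pc ψ κ L y * (MM (1 + 4 * κ) m S y t * Dz z w ((1 + 4 * κ : ℝ) + y * I))

lemma diag_hasSum {D1 D2 : ℝ} {F1 F2 : ℂ → ℂ} {A B : ℕ → ℂ} (h : TF ξ1 ψ) (hκ : 0 < κ)
    (E1 : DD F1 A κ D1) (E2 : DD F2 B κ D2) {L : ℝ} (hL : 1 ≤ L) :
    HasSum (fun n : ℕ => aa ψ A B κ L (n, n)) (∫ y : ℝ, Pc ψ κ L y *
      ∑' n : ℕ, (A n * (n : ℂ) ^ (-((1 + 4 * κ : ℝ) + y * I) : ℂ)) *
        (B n * (n : ℂ) ^ (-((1 + 4 * κ : ℝ) + y * I) : ℂ))) := by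
  set f : ℕ → ℝ → ℂ := fun n y => Pc ψ κ L y *
    ((A n * (n : ℂ) ^ (-((1 + 4 * κ : ℝ) + y * I) : ℂ)) *
      (B n * (n : ℂ) ^ (-((1 + 4 * κ : ℝ) + y * I) : ℂ))) with hf
  have hfe : ∀ n y, f n y = (A n * B n *
      (((n : ℝ) ^ (-(1 + 4 * κ)) * (n : ℝ) ^ (-(1 + 4 * κ)) : ℝ) : ℂ)) *
      (Pc ψ κ L y * exp (-((Real.log n + Real.log n) * y) * I)) := by
    intro n y
    rw [hf]
    simp only
    rcases Nat.eq_zero_or_pos n with h1 | h1
    · rw [h1, E1.A0]; simp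
    rw [cpow_eq h1]
    have e : exp (-((y : ℂ) * Real.log n) * I) * exp (-((y : ℂ) * Real.log n) * I) =
          exp (-((Real.log n + Real.log n) * y) * I) := by
      rw [← exp_add]
      congr 1
      push_cast; ring
    push_cast at e ⊢
    linear_combination (Pc ψ κ L y * A n * B n * ((n : ℝ) ^ (-(1 + 4 * κ)) : ℝ) *
      ((n : ℝ) ^ (-(1 + 4 * κ)) : ℝ)) * e
  have hfi : ∀ n, Integrable (f n) := by
    intro n
    rw [show f n = fun y => (A n * B n *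
      (((n : ℝ) ^ (-(1 + 4 * κ)) * (n : ℝ) ^ (-(1 + 4 * κ)) : ℝ) : ℂ)) *
      (Pc ψ κ L y * exp (-((Real.log n + Real.log n) * y) * I)) from funext (hfe n)]
    refine Integrable.const_mul ?_ _
    refine (Pc_int h hκ hL).mul_bdd (c := 1) ?_ ?_
    · exact (by fun_prop : Continuous fun y : ℝ =>
        exp (-(((Real.log n : ℝ) + (Real.log n : ℝ) : ℂ) * y) * I)).aestronglyMeasurable
    · refine Eventually.of_forall fun y => ?_
      have : (-(((Real.log n : ℝ) + (Real.log n : ℝ) : ℂ) * y) * I) =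
        ((-((Real.log n + Real.log n) * y) : ℝ) : ℂ) * I := by push_cast; ring
      rw [this, norm_expI]
  have hfn : ∀ n y, ‖f n y‖ = ((‖A n‖ * (n : ℝ) ^ (-(1 + 4 * κ))) *
      (‖B n‖ * (n : ℝ) ^ (-(1 + 4 * κ)))) * ‖Pc ψ κ L y‖ := by
    intro n y
    rw [hf]
    simp only
    rw [norm_mul, norm_mul, term_norm E1, term_norm E2]
    ring
  have hdi : Function.Injective (fun n : ℕ => (n, n)) := fun a b h => (Prod.mk.inj h).1
  have hSS := (SS_summable hκ E1 E2).comp_injective hdi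
  have hsum : Summable fun n => ∫ y, ‖f n y‖ := by
    refine (hSS.mul_right (Dp ψ κ L)).congr fun n => ?_
    simp only [hfn]
    rw [integral_const_mul]; rfl
  have key := hasSum_integral_of_summable_integral_norm hfi hsum
  have e1 : (∫ y, ∑' n, f n y) = ∫ y : ℝ, Pc ψ κ L y *
      ∑' n : ℕ, (A n * (n : ℂ) ^ (-((1 + 4 * κ : ℝ) + y * I) : ℂ)) *
        (B n * (n : ℂ) ^ (-((1 + 4 * κ : ℝ) + y * I) : ℂ)) := by
    congr 1; funext y
    rw [hf]
    simp only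
    rw [tsum_mul_left]
  rw [e1] at key
  have e2 : (fun n => ∫ y, f n y) = fun n : ℕ => aa ψ A B κ L (n, n) := by
    funext n
    simp only [hfe]
    rw [integral_const_mul]
    unfold aa qq
    rfl
  rw [e2] at key
  exact key

lemma Kd_sum (m : ℕ) (S : ℝ) (h : TF ξ1 ψ) (hκ : 0 < κ) {k : ℕ} (z w : Fin k → ℝ)
    {T : ℝ} (hT : Real.exp 1 ≤ T) {N : ℕ} (hN : T ^ (ξ1 + 2 * m) ≤ N) {t : ℝ} (h1 : 1 ≤ t)
    (h2 : t ≤ T) :
    Kd m S ψ z w κ (Real.log T) t = ∑ n ∈ Finset.range (N + 1),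
      tm ψ m S (tau (fun j => -(z j * I))) (tau (fun j => -(w j * I))) (Real.log T) (n, n) t := by
  have hT0 : 0 < T := (Real.exp_pos 1).trans_le hT
  have hL : 1 ≤ Real.log T := by rwa [Real.le_log_iff_exp_le hT0]
  set L := Real.log T with hLd
  have hL0 : 0 < L := by linarith
  obtain ⟨D, hD, hd⟩ := tau_ptw k hκ
  have E1 := ZP_DD z hκ (hd z)
  have E2 := ZP_DD w hκ (hd w)
  have e0 : Kd m S ψ z w κ L t = exp ((S * Real.log (t / (2 * Real.pi)) : ℝ) * I) *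
      ∫ y : ℝ, Pc (fun ξ => ψ (ξ - 2 * m * Real.log (t / (2 * Real.pi)) / L)) κ L y *
        Dz z w ((1 + 4 * κ : ℝ) + y * I) := by
    unfold Kd
    rw [← integral_const_mul]
    congr 1; funext y
    rw [MM_split m S κ hL0]
    unfold Pc
    rw [P_shift]
    ring
  rw [e0]
  unfold Dz
  have hs := (diag_hasSum (h.shift (2 * m * Real.log (t / (2 * Real.pi)) / L)) hκ E1 E2 hL).mul_left
    (exp ((S * Real.log (t / (2 * Real.pi)) : ℝ) * I))
  have hfe : ∀ n : ℕ, exp ((S * Real.log (t / (2 * Real.pi)) : ℝ) * I) *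
      aa (fun ξ => ψ (ξ - 2 * m * Real.log (t / (2 * Real.pi)) / L))
        (tau (fun j => -(z j * I))) (tau (fun j => -(w j * I))) κ L (n, n) =
      tm ψ m S (tau (fun j => -(z j * I))) (tau (fun j => -(w j * I))) L (n, n) t := by
    intro n
    rw [aa_eq (h.shift _) hκ E1 E2 hL]
    unfold tt tm cf gg
    simp only [sub_self, neg_zero, zero_mul, Complex.ofReal_zero, exp_zero, mul_one]
    ring
  simp only [hfe] at hs
  refine hs.unique (hasSum_sum_of_ne_finset_zero fun n hx => ?_)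
  rw [Finset.mem_range] at hx
  rcases Nat.eq_zero_or_pos n with hx1 | hx1
  · unfold tm cf; rw [hx1, tau_zero]; simp
  have hTη : Real.log (T ^ (ξ1 + 2 * m)) = (ξ1 + 2 * m) * L := by rw [Real.log_rpow hT0]
  have hbig : (ξ1 + 2 * m) * L < Real.log n := by
    rw [← hTη]
    refine Real.log_lt_log (by positivity) (hN.trans_lt ?_)
    exact_mod_cast (by omega : N < n)
  have hmx : ξ1 + 2 * m < (Real.log n + Real.log n) / L := by
    rw [lt_div_iff₀ hL0]
    have l1 := Real.log_natCast_nonneg n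
    linarith
  unfold tm
  rw [gg_zero h hL0 le_rfl h1 h2 hmx]
  simp

/-- the difference of the two models, integrated -/
theorem Kn_Kd (m : ℕ) (S : ℝ) (h : TF ξ1 ψ) (hκ : 0 < κ) {k : ℕ} (z w : Fin k → ℝ) :
    ∃ W : ℝ, 0 ≤ W ∧ ∀ T : ℝ, Real.exp 1 ≤ T →
      IntervalIntegrable (Kn m S ψ z w κ (Real.log T)) volume 1 T ∧
      IntervalIntegrable (Kd m S ψ z w κ (Real.log T)) volume 1 T ∧
      ‖(∫ t in (1:ℝ)..T, Kn m S ψ z w κ (Real.log T) t) -
        ∫ t in (1:ℝ)..T, Kd m S ψ z w κ (Real.log T) t‖ ≤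
      W * T ^ ((ξ1 + 2 * m) * (1 / 2 + 4 * κ)) := by
  obtain ⟨W, hW, hw⟩ := Kn_int m S h hκ z w
  refine ⟨W, hW, fun T hT => ?_⟩
  obtain ⟨hi, hb⟩ := hw T hT
  have hT0 : 0 < T := (Real.exp_pos 1).trans_le hT
  have hT1 : 1 ≤ T := by have := Real.add_one_le_exp 1; linarith
  have hL : 1 ≤ Real.log T := by rwa [Real.le_log_iff_exp_le hT0]
  obtain ⟨N, hN⟩ := exists_nat_ge (T ^ (ξ1 + 2 * m))
  have hKs := fun (t : ℝ) (h1 : 1 ≤ t) (h2 : t ≤ T) => Kd_sum (κ := κ) m S h hκ z w hT hN h1 h2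
  set A := tau (fun j : Fin k => -(z j * I)) with hA
  set B := tau (fun j : Fin k => -(w j * I)) with hB
  set L := Real.log T with hLd
  have hL0 : 0 < L := by linarith
  have hti : ∀ x, IntervalIntegrable (tm ψ m S A B L x) volume 1 T := fun x =>
    ContinuousOn.intervalIntegrable (by rw [uIcc_of_le hT1]; exact tm_cont h m S A B L x T)
  have hci : ContinuousOn (Kd m S ψ z w κ L) (Icc 1 T) := by
    have : ContinuousOn (fun t => ∑ n ∈ Finset.range (N + 1), tm ψ m S A B L (n, n) t) (Icc 1 T) :=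
      continuousOn_finsetSum _ fun n _ => tm_cont h m S A B L (n, n) T
    exact this.congr fun t ht => hKs t ht.1 ht.2
  refine ⟨hi, ContinuousOn.intervalIntegrable (by rw [uIcc_of_le hT1]; exact hci), ?_⟩
  have e1 : (∫ t in (1:ℝ)..T, Kd m S ψ z w κ L t) =
      ∑ n ∈ Finset.range (N + 1), ∫ t in (1:ℝ)..T, tm ψ m S A B L (n, n) t := by
    rw [← intervalIntegral.integral_finsetSum fun x _ => hti (x, x)]
    refine intervalIntegral.integral_congr fun t ht => ?_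
    rw [uIcc_of_le hT1] at ht
    exact hKs t ht.1 ht.2
  have hTη : Real.log (T ^ (ξ1 + 2 * m)) = (ξ1 + 2 * m) * L := by rw [Real.log_rpow hT0]
  have e2 : ((2 * Real.pi / L : ℝ) : ℂ) * ∑' n : ℕ, A n * B n / n *
      ∫ t in (1:ℝ)..T, gg ψ m S L (2 * Real.log n / L) t =
      ∑ n ∈ Finset.range (N + 1), ∫ t in (1:ℝ)..T, tm ψ m S A B L (n, n) t := by
    have e3 : ∀ n : ℕ, ∫ t in (1:ℝ)..T, tm ψ m S A B L (n, n) t = ((2 * Real.pi / L : ℝ) : ℂ) *
        (A n * B n / n * ∫ t in (1:ℝ)..T, gg ψ m S L (2 * Real.log n / L) t) := by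
      intro n
      rw [← mul_assoc, ← intervalIntegral.integral_const_mul]
      refine intervalIntegral.integral_congr fun t _ => ?_
      exact tm_diag n (tau_zero _)
    rw [tsum_eq_sum (s := Finset.range (N + 1))]
    · simp only [e3]
      rw [Finset.mul_sum]
    · intro n hn
      rw [Finset.mem_range] at hn
      have : ∫ t in (1:ℝ)..T, gg ψ m S L (2 * Real.log n / L) t = ∫ t in (1:ℝ)..T, 0 := by
        refine intervalIntegral.integral_congr fun t ht => ?_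
        rw [uIcc_of_le hT1] at ht
        refine gg_zero h hL0 le_rfl ht.1 ht.2 ?_
        rw [lt_div_iff₀ hL0, ← hTη]
        have h1 : Real.log (T ^ (ξ1 + 2 * m)) < Real.log n := by
          refine Real.log_lt_log (by positivity) (hN.trans_lt ?_)
          exact_mod_cast (by omega : N < n)
        have := Real.log_natCast_nonneg n
        linarith
      rw [this, intervalIntegral.integral_zero, mul_zero]
  rw [e1, ← e2]
  exact hb

end

end Pool.Agent.TH612.CF
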