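import Pool.Agent.TH612.CF.Gd

set_option autoImplicit false

/-! The main swap term and the diagonal model. -/

namespace Pool.Agent.TH612.CF

open Complex Filter Topology MeasureTheory Set
open scoped ContDiff
open Pool.Agent.W182.KO

noncomputable section

variable {k : ℕ}

/-- the main swap term is the integral of the diagonal model -/
theorem Q_good {g v : Fin k ⊕ Fin k → ℝ} (hv : Sgn v) (hi : CI g v) {ξ1 : ℝ} {ψ : ℝ → ℂ}
    (h : TF ξ1 ψ) {c0 : ℝ} (hc0 : 0 < c0) (hc : c0 < 1 / 4) {κ : ℝ} (hκ : 0 < κ)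
    {π : Equiv.Perm (Fin k ⊕ Fin k)} (hπ : Good v π) {θ : ℝ} (hθ : 1 / 2 ≤ θ)
    (hθ2 : (ξ1 + 2 * (SL π).card) * (1 / 2 + 4 * κ) < θ) :
    ∃ C : ℝ, 0 ≤ C ∧ ∀ T : ℝ, Real.exp 1 ≤ T →
      ‖(∫ t in (0:ℝ)..T, JR ψ g v c0 (Real.log T) π t) -
        ∫ t in (1:ℝ)..T, Kd (SL π).card ((∑ j ∈ SL π, zz g π j) + ∑ j ∈ SR π, ww g π j) ψ
          (zz g π) (ww g π) κ (Real.log T) t‖ ≤ C * T ^ θ := by
  set m : ℕ := (SL π).card with hm
  set Sm : ℝ := (∑ j ∈ SL π, zz g π j) + ∑ j ∈ SR π, ww g π j with hSm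
  set a' : ℝ := (ξ1 + 2 * m) * (1 / 2 + 4 * κ) with ha'
  obtain ⟨Cm, hCm, hmod⟩ := model_gen h hκ (zz g π) (ww g π) (S := SL π) (S' := SR π) (m := m) rfl
    (card_SL_SR π).symm
  obtain ⟨Z, hZ, hz⟩ := Dz_bd (zz g π) (ww g π) (δ := 1 / 2) (by norm_num)
  obtain ⟨W, hW, hw⟩ := Kn_Kd m Sm h hκ (zz g π) (ww g π)
  obtain ⟨C1, hC1, hb1⟩ := JR_ptw hv hi h hc0 hc
  have hJ := J2_nonneg
  set ε : ℝ := θ - a' with hε
  have hε0 : 0 < ε := by rw [hε]; linarith
  refine ⟨C1 * J2 * 2 ^ k + Cm * Z / ε, by positivity, fun T hTe => ?_⟩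
  have hT0 : 0 < T := (Real.exp_pos 1).trans_le hTe
  have hT1 : 1 ≤ T := by have := Real.add_one_le_exp 1; linarith
  have hL : 1 ≤ Real.log T := by rwa [Real.le_log_iff_exp_le hT0]
  obtain ⟨_, iD, _⟩ := hw T hTe
  set L := Real.log T with hLd
  have hL0 : 0 < L := by linarith
  have iJ := JR_int hv hi h hc0 hc hL π hT0.le
  have iJ1 : IntervalIntegrable (JR ψ g v c0 L π) volume 0 1 :=
    iJ.mono_set (by rw [uIcc_of_le zero_le_one, uIcc_of_le hT0.le]; exact Icc_subset_Icc_right hT1)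
  have iJ2 : IntervalIntegrable (JR ψ g v c0 L π) volume 1 T :=
    iJ.mono_set (by rw [uIcc_of_le hT1, uIcc_of_le hT0.le]; exact Icc_subset_Icc_left zero_le_one)
  have hk4 : 0 < 1 / 2 + 4 * κ := by linarith
  have hξc : ξ1 * c0 ≤ θ := by
    rcases le_total ξ1 0 with h0 | h0
    · have := mul_nonpos_of_nonpos_of_nonneg h0 hc0.le
      linarith
    · have hm0 : (0:ℝ) ≤ m := Nat.cast_nonneg m
      have h1 : ξ1 * c0 ≤ ξ1 * (1 / 2 + 4 * κ) := by
        refine mul_le_mul_of_nonneg_left ?_ h0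
        linarith
      have h2 : ξ1 * (1 / 2 + 4 * κ) ≤ a' := by
        rw [ha']
        refine mul_le_mul_of_nonneg_right ?_ hk4.le
        linarith
      linarith
  have hEξ : Real.exp (ξ1 * (L * (1 + 4 * κ - 1 / 2))) = T ^ (ξ1 * (1 / 2 + 4 * κ)) := by
    rw [hLd, exp_rpow hT0]
    congr 1; ring
  have hEa : ∀ t : ℝ, 1 ≤ t → t ≤ T → T ^ (ξ1 * (1 / 2 + 4 * κ)) * t ^ (m * (1 + 8 * κ)) ≤ T ^ a' := by
    intro t h1 h2
    have h3 : t ^ (m * (1 + 8 * κ)) ≤ T ^ (m * (1 + 8 * κ)) :=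
      Real.rpow_le_rpow (by linarith) h2 (by positivity)
    calc _ ≤ T ^ (ξ1 * (1 / 2 + 4 * κ)) * T ^ (m * (1 + 8 * κ)) := by gcongr
      _ = T ^ a' := by
          rw [← Real.rpow_add hT0, ha']
          congr 1; ring
  -- first piece
  have p1 : ‖∫ t in (0:ℝ)..1, JR ψ g v c0 L π t‖ ≤ (C1 * J2 * 2 ^ k) * T ^ θ := by
    have := intervalIntegral.norm_integral_le_of_norm_le_const (a := 0) (b := 1)
      (f := JR ψ g v c0 L π) (C := (C1 * J2 * 2 ^ k) * T ^ θ) (fun t ht => by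
        rw [uIoc_of_le zero_le_one] at ht
        unfold JR
        refine (norm_integral_decay (n := 0) (by have := ht.1; positivity)
          (fun y => hb1 π L t y hL ht.1.le)).trans ?_
        have h1 : (1 + t) ^ (ee v π * c0) ≤ 2 ^ k := by
          refine (tpow_le' hv π ht.1.le ht.2 (ρ := c0) (by rw [abs_of_pos hc0]; exact hc.le)).trans ?_
          norm_num
        have h2 : Real.exp (ξ1 * (L * c0)) ≤ T ^ θ := by
          rw [hLd, exp_rpow hT0]
          exact Real.rpow_le_rpow_of_exponent_le hT1 hξc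
        have h3 : 0 ≤ (1 + t) ^ (ee v π * c0) := by have := ht.1; positivity
        calc _ = C1 * J2 * (1 + t) ^ (ee v π * c0) * Real.exp (ξ1 * (L * c0)) := by ring
          _ ≤ _ := by gcongr)
    simpa using this
  -- the main piece
  have hpt : ∀ t ∈ Ioc 1 T, ‖JR ψ g v c0 L π t - Kd m Sm ψ (zz g π) (ww g π) κ L t‖ ≤
      Cm * Z * T ^ a' * (1 / t) := by
    intro t ht
    have ht1 : 1 ≤ t := ht.1.le
    have ht0 : 0 < t := by linarith
    have hDc : Continuous (fun y : ℝ => Dz (zz g π) (ww g π) ((1 + 4 * κ : ℝ) + y * I)) := by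
      rw [continuous_iff_continuousAt]
      intro y
      exact ContinuousAt.comp (f := fun y : ℝ => (((1 + 4 * κ : ℝ) : ℂ) + y * I))
        (Dz_diff _ _ (by simp; linarith)).continuousAt (by fun_prop)
    have g2 := hmod L t Z (fun y => Dz (zz g π) (ww g π) ((1 + 4 * κ : ℝ) + y * I)) hL ht1 hZ hDc
      (fun y => hz _ (by simp; linarith))
    rw [← JR_move h hc0 hc hκ hπ hL ht0.le] at g2
    have e5 : (∫ y : ℝ, Pc ψ κ L y * (MM (1 + 4 * κ) m ((∑ j ∈ SL π, zz g π j) + ∑ j ∈ SR π, ww g π j) y t *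
          Dz (zz g π) (ww g π) ((1 + 4 * κ : ℝ) + y * I))) =
          Kd m Sm ψ (zz g π) (ww g π) κ L t := rfl
    rw [e5] at g2
    refine g2.trans ?_
    rw [hEξ]
    have h6 : t ^ (m * (1 + 8 * κ) - 1) = t ^ (m * (1 + 8 * κ)) * (1 / t) := by
      rw [Real.rpow_sub ht0, Real.rpow_one, div_eq_mul_one_div]
    rw [h6]
    have h7 := hEa t ht1 ht.2
    calc _ = Cm * Z * (T ^ (ξ1 * (1 / 2 + 4 * κ)) * t ^ (m * (1 + 8 * κ))) * (1 / t) := by ring
      _ ≤ _ := by gcongr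
  have p3 : ‖∫ t in (1:ℝ)..T, (JR ψ g v c0 L π t - Kd m Sm ψ (zz g π) (ww g π) κ L t)‖ ≤
      (Cm * Z / ε) * T ^ θ := by
    have hii : IntervalIntegrable (fun t : ℝ => Cm * Z * T ^ a' * (1 / t)) volume 1 T := by
      refine ContinuousOn.intervalIntegrable ?_
      rw [uIcc_of_le hT1]
      refine continuousOn_const.mul (continuousOn_const.div continuousOn_id fun t ht => ?_)
      exact (by linarith [ht.1] : (0:ℝ) < t).ne'
    refine (intervalIntegral.norm_integral_le_of_norm_le hT1 (Eventually.of_forall hpt) hii).trans ?_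
    rw [intervalIntegral.integral_const_mul, integral_one_div_of_pos (by linarith) hT0, div_one]
    have h8 : Real.log T ≤ T ^ ε / ε := Real.log_le_rpow_div hT0.le hε0
    calc _ ≤ Cm * Z * T ^ a' * (T ^ ε / ε) := by gcongr
      _ = Cm * Z / ε * (T ^ a' * T ^ ε) := by ring
      _ = _ := by
          rw [← Real.rpow_add hT0]
          congr 2
          rw [hε]; ring
  rw [← intervalIntegral.integral_add_adjacent_intervals iJ1 iJ2]
  rw [intervalIntegral.integral_sub iJ2 iD] at p3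
  set A1 := ∫ t in (0:ℝ)..1, JR ψ g v c0 L π t
  set A2 := ∫ t in (1:ℝ)..T, JR ψ g v c0 L π t
  set Q := ∫ t in (1:ℝ)..T, Kd m Sm ψ (zz g π) (ww g π) κ L t
  calc ‖A1 + A2 - Q‖ = ‖A1 + (A2 - Q)‖ := by congr 1; ring
    _ ≤ ‖A1‖ + ‖A2 - Q‖ := norm_add_le _ _
    _ ≤ _ := by linarith

end

end Pool.Agent.TH612.CF
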