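import Pool.Agent.TH612.CF.Xf

set_option autoImplicit false

/-! The swap terms of the recipe. -/

namespace Pool.Agent.TH612.CF

open Complex Filter Topology MeasureTheory Set
open Pool.Agent.W182.KO

noncomputable section

variable {k : ℕ}

/-- the factor `G_γ(π)` -/
def GG (t : ℝ) (γ : Fin k ⊕ Fin k → ℂ) (π : Equiv.Perm (Fin k ⊕ Fin k)) : ℂ :=
  (∏ j : Fin k, if (π (Sum.inl j)).isRight then chi (1 / 2 - I * t - I * γ (π (Sum.inl j))) else 1) *
  ∏ j : Fin k, if (π (Sum.inr j)).isLeft then chi (1 / 2 + I * t + I * γ (π (Sum.inr j))) else 1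

/-- the value at `1/2` of the arithmetic series -/
def zab (a b : Fin k → ℂ) : ℂ := FH a b * ∏ j, ∏ l, riemannZeta (1 + I * a j - I * b l)

/-- a swap term -/
def Rt (t : ℝ) (γ : Fin k ⊕ Fin k → ℂ) (π : Equiv.Perm (Fin k ⊕ Fin k)) : ℂ :=
  GG t γ π * zab (fun j => γ (π (Sum.inl j))) (fun j => γ (π (Sum.inr j)))

/-- the sum over all permutations -/
def Qs (t : ℝ) (γ : Fin k ⊕ Fin k → ℂ) : ℂ :=
  ∑ π : Equiv.Perm (Fin k ⊕ Fin k), Rt t γ π

/-- one factor -/
def Xt (t : ℝ) (g : ℂ) : ℂ := chi (1 / 2 + (I * t + I * g))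

lemma re_aux (t : ℝ) (g : ℂ) : (I * t + I * g).re = -g.im := by simp

lemma Xt_ne {t : ℝ} {g : ℂ} (h : |g.im| < 1 / 2) : Xt t g ≠ 0 := chi_ne (by rw [re_aux, abs_neg]; exact h)

lemma Xt_inv {t : ℝ} {g : ℂ} (h : |g.im| < 1 / 2) : (Xt t g)⁻¹ = chi (1 / 2 - I * t - I * g) := by
  unfold Xt
  rw [chi_inv (by rw [re_aux, abs_neg]; exact h)]
  congr 1; ring

/-- symmetric form of the factor -/
lemma GG_eq (t : ℝ) {γ : Fin k ⊕ Fin k → ℂ} (h : ∀ i, |(γ i).im| < 1 / 2)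
    (π : Equiv.Perm (Fin k ⊕ Fin k)) :
    GG t γ π = (∏ j : Fin k, Xt t (γ (Sum.inl j))) * ∏ j : Fin k, (Xt t (γ (π (Sum.inl j))))⁻¹ := by
  have e1 : ∏ j : Fin k, Xt t (γ (Sum.inl j)) =
      ∏ i : Fin k ⊕ Fin k, if i.isLeft then Xt t (γ i) else 1 := by
    rw [Fintype.prod_sum_type]
    simp
  have e2 : (∏ i : Fin k ⊕ Fin k, if i.isLeft then Xt t (γ i) else 1) =
      ∏ i : Fin k ⊕ Fin k, if (π i).isLeft then Xt t (γ (π i)) else 1 :=
    (Equiv.prod_comp π (fun i : Fin k ⊕ Fin k => if i.isLeft then Xt t (γ i) else 1)).symm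
  rw [e1, e2, Fintype.prod_sum_type]
  unfold GG
  have e3 : (∏ j : Fin k, if (π (Sum.inl j)).isRight then chi (1 / 2 - I * t - I * γ (π (Sum.inl j))) else 1) =
      (∏ j : Fin k, if (π (Sum.inl j)).isLeft then Xt t (γ (π (Sum.inl j))) else 1) *
      ∏ j : Fin k, (Xt t (γ (π (Sum.inl j))))⁻¹ := by
    rw [← Finset.prod_mul_distrib]
    refine Finset.prod_congr rfl fun j _ => ?_
    rw [← Xt_inv (h _)]
    rcases hh : π (Sum.inl j) with i | i
    · simp [mul_inv_cancel₀ (Xt_ne (t := t) (h (Sum.inl i)))]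
    · simp
  have e4 : (∏ j : Fin k, if (π (Sum.inr j)).isLeft then chi (1 / 2 + I * t + I * γ (π (Sum.inr j))) else 1) =
      ∏ j : Fin k, if (π (Sum.inr j)).isLeft then Xt t (γ (π (Sum.inr j))) else 1 := by
    refine Finset.prod_congr rfl fun j _ => ?_
    unfold Xt
    rw [add_assoc]
  rw [e3, e4]
  ring

section cont

variable {X : Type*} [TopologicalSpace X] {U : Set X} {T : X → ℝ} {Γ : X → Fin k ⊕ Fin k → ℂ}

lemma Xt_cont {g : X → ℂ} (hT : ContinuousOn T U) (hg : ContinuousOn g U)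
    (h : ∀ x ∈ U, |(g x).im| < 1 / 2) : ContinuousOn (fun x => Xt (T x) (g x)) U := by
  intro x hx
  unfold Xt
  have h1 : ContinuousWithinAt (fun x => (1 / 2 + (I * T x + I * g x) : ℂ)) U x := by
    have h2 := hT x hx
    have h3 := hg x hx
    have h4 : ContinuousWithinAt (fun x => ((T x : ℝ) : ℂ)) U x :=
      Complex.continuous_ofReal.continuousAt.comp_continuousWithinAt h2
    fun_prop
  exact ContinuousAt.comp_continuousWithinAt (f := fun x => (1 / 2 + (I * T x + I * g x) : ℂ))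
    (chi_diff (by rw [re_aux, abs_neg]; exact h x hx)).continuousAt h1

lemma GG_cont (hT : ContinuousOn T U) (hΓ : ∀ i, ContinuousOn (fun x => Γ x i) U)
    (h : ∀ x ∈ U, ∀ i, |(Γ x i).im| < 1 / 2) (π : Equiv.Perm (Fin k ⊕ Fin k)) :
    ContinuousOn (fun x => GG (T x) (Γ x) π) U := by
  have h1 : ContinuousOn (fun x => (∏ j : Fin k, Xt (T x) (Γ x (Sum.inl j))) *
      ∏ j : Fin k, (Xt (T x) (Γ x (π (Sum.inl j))))⁻¹) U := by
    refine ContinuousOn.mul ?_ ?_
    · exact continuousOn_finsetProd _ fun j _ => Xt_cont hT (hΓ _) fun x hx => h x hx _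
    · exact continuousOn_finsetProd _ fun j _ =>
        (Xt_cont hT (hΓ _) fun x hx => h x hx _).inv₀ fun x hx => Xt_ne (h x hx _)
  exact h1.congr fun x hx => GG_eq (T x) (h x hx) π

lemma zeta_cont {w : X → ℂ} (hw : ContinuousOn w U) (h : ∀ x ∈ U, w x ≠ 1) :
    ContinuousOn (fun x => riemannZeta (w x)) U := fun x hx =>
  (differentiableAt_riemannZeta (h x hx)).continuousAt.comp_continuousWithinAt (hw x hx)

lemma one_ne {a b : ℂ} (h : a ≠ b) : 1 + I * a - I * b ≠ 1 := by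
  intro h1
  have h2 : I * (a - b) = 0 := by linear_combination h1
  rcases mul_eq_zero.1 h2 with h3 | h3
  · exact I_ne_zero h3
  · exact h (sub_eq_zero.1 h3)

lemma Rt_cont [LocallyCompactSpace X] (hU : IsOpen U) {c : ℝ} (hc : c < 1 / 4)
    (hT : ContinuousOn T U) (hΓ : ∀ i, ContinuousOn (fun x => Γ x i) U)
    (h : ∀ x ∈ U, ∀ i, |(Γ x i).im| ≤ c) (π : Equiv.Perm (Fin k ⊕ Fin k))
    (hcr : ∀ x ∈ U, ∀ j l, Γ x (π (Sum.inl j)) ≠ Γ x (π (Sum.inr l))) :
    ContinuousOn (fun x => Rt (T x) (Γ x) π) U := by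
  unfold Rt zab
  refine ContinuousOn.mul (GG_cont hT hΓ (fun x hx i => (h x hx i).trans_lt (by linarith)) π)
    (ContinuousOn.mul ?_ ?_)
  · exact FH_cont hU hc (fun j => hΓ _) (fun j => hΓ _) fun x hx j => ⟨h x hx _, h x hx _⟩
  · refine continuousOn_finsetProd _ fun j _ => continuousOn_finsetProd _ fun l _ => ?_
    refine zeta_cont ?_ fun x hx => one_ne (hcr x hx j l)
    have h1 := hΓ (π (Sum.inl j))
    have h2 := hΓ (π (Sum.inr l))
    fun_prop

end cont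

section diff

variable {U : Set ℂ} {Γ : ℂ → Fin k ⊕ Fin k → ℂ}

lemma Xt_diff (t : ℝ) {g : ℂ → ℂ} (hg : DifferentiableOn ℂ g U)
    (h : ∀ x ∈ U, |(g x).im| < 1 / 2) : DifferentiableOn ℂ (fun x => Xt t (g x)) U := by
  intro x hx
  unfold Xt
  have h1 : DifferentiableWithinAt ℂ (fun x => (1 / 2 + (I * t + I * g x) : ℂ)) U x := by
    have h3 := hg x hx
    fun_prop
  exact DifferentiableAt.comp_differentiableWithinAt (f := fun x => (1 / 2 + (I * t + I * g x) : ℂ)) x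
    (chi_diff (by rw [re_aux, abs_neg]; exact h x hx)) h1

lemma Rt_diff (hU : IsOpen U) {c : ℝ} (hc : c < 1 / 4) (t : ℝ)
    (hΓ : ∀ i, DifferentiableOn ℂ (fun x => Γ x i) U)
    (h : ∀ x ∈ U, ∀ i, |(Γ x i).im| ≤ c) (π : Equiv.Perm (Fin k ⊕ Fin k))
    (hcr : ∀ x ∈ U, ∀ j l, Γ x (π (Sum.inl j)) ≠ Γ x (π (Sum.inr l))) :
    DifferentiableOn ℂ (fun x => Rt t (Γ x) π) U := by
  have h' : ∀ x ∈ U, ∀ i, |(Γ x i).im| < 1 / 2 := fun x hx i => (h x hx i).trans_lt (by linarith)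
  unfold Rt zab
  refine DifferentiableOn.mul ?_ (DifferentiableOn.mul ?_ ?_)
  · have h1 : DifferentiableOn ℂ (fun x => (∏ j : Fin k, Xt t (Γ x (Sum.inl j))) *
        ∏ j : Fin k, (Xt t (Γ x (π (Sum.inl j))))⁻¹) U := by
      refine DifferentiableOn.mul ?_ ?_
      · intro x hx
        exact DifferentiableWithinAt.fun_finsetProd fun j _ =>
          Xt_diff t (hΓ _) (fun x hx => h' x hx _) x hx
      · intro x hx
        exact DifferentiableWithinAt.fun_finsetProd fun j _ =>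
          (Xt_diff t (hΓ _) (fun x hx => h' x hx _) x hx).inv (Xt_ne (h' x hx _))
    exact h1.congr fun x hx => GG_eq t (h' x hx) π
  · exact FH_diff hU hc (fun j => hΓ _) (fun j => hΓ _) fun x hx j => ⟨h x hx _, h x hx _⟩
  · intro x hx
    refine DifferentiableWithinAt.fun_finsetProd fun j _ =>
      DifferentiableWithinAt.fun_finsetProd fun l _ => ?_
    have h1 := hΓ (π (Sum.inl j)) x hx
    have h2 := hΓ (π (Sum.inr l)) x hx
    exact DifferentiableAt.comp_differentiableWithinAt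
      (f := fun x => (1 + I * Γ x (π (Sum.inl j)) - I * Γ x (π (Sum.inr l)))) x
      (differentiableAt_riemannZeta (one_ne (hcr x hx j l))) (by fun_prop)

end diff

end

end Pool.Agent.TH612.CF
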