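import Pool.Agent.W182.KO.Up4

set_option autoImplicit false

/-! Divisor functions with complex exponents. -/

namespace Pool.Agent.TH612.CF

open Complex Filter Topology MeasureTheory Set
open Pool.Agent.W182.KO

noncomputable section

/-- size of `tau` -/
lemma tau_le {k : ℕ} {l : Fin k → ℂ} {c : ℝ} (hl : ∀ j, (l j).re ≤ c) (n : ℕ) :
    ‖tau l n‖ ≤ (n.divisors.card : ℝ) ^ k * (n : ℝ) ^ c := by
  rcases Nat.eq_zero_or_pos n with hn | hn
  · subst hn; rw [tau_zero, norm_zero]; positivity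
  unfold tau
  have h1 : ∀ f ∈ Nat.finMulAntidiag k n, ‖∏ j, (f j : ℂ) ^ (l j)‖ ≤ (n : ℝ) ^ c := by
    intro f hf
    have hpos : ∀ j, 0 < f j := fun j => Nat.pos_of_ne_zero (Nat.ne_zero_of_mem_finMulAntidiag hf j)
    rw [norm_prod]
    have hprod : (n : ℝ) ^ c = ∏ j, (f j : ℝ) ^ c := by
      rw [Real.finsetProd_rpow _ _ (fun j _ => by positivity)]
      congr 1
      have := Nat.prod_eq_of_mem_finMulAntidiag hf
      rw [← this]; push_cast; rfl
    rw [hprod]
    refine Finset.prod_le_prod (fun _ _ => norm_nonneg _) fun j _ => ?_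
    rw [Complex.norm_natCast_cpow_of_pos (hpos j)]
    exact Real.rpow_le_rpow_of_exponent_le (by exact_mod_cast hpos j) (hl j)
  refine (norm_sum_le_of_le _ h1).trans ?_
  rw [Finset.sum_const, nsmul_eq_mul]
  have h2 : (Nat.finMulAntidiag k n).card ≤ n.divisors.card ^ k := by
    rw [Nat.finMulAntidiag_eq_piFinset_divisors_filter dvd_rfl hn.ne']
    refine (Finset.card_filter_le _ _).trans ?_
    rw [Fintype.card_piFinset]
    simp
  have h3 : ((Nat.finMulAntidiag k n).card : ℝ) ≤ (n.divisors.card : ℝ) ^ k := by exact_mod_cast h2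
  gcongr

lemma tau_one {k : ℕ} (l : Fin k → ℂ) : tau l 1 = 1 := by
  unfold tau
  rw [Nat.finMulAntidiag_one]
  simp

lemma tau_succ {k : ℕ} (l : Fin (k + 1) → ℂ) (n : ℕ) :
    tau l n = ∑ p ∈ n.divisorsAntidiagonal, (p.1 : ℂ) ^ (l 0) * tau (fun j => l j.succ) p.2 :=
  antidiag_succ (fun j n => (n:ℂ) ^ (l j)) n

lemma tau_nil (l : Fin 0 → ℂ) (n : ℕ) : tau l n = if n = 1 then 1 else 0 := by
  unfold tau
  split_ifs with h
  · subst h
    rw [Nat.finMulAntidiag_one]
    simp
  · rw [Nat.finMulAntidiag_zero_left h]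
    simp

/-- one exponent as an arithmetic function -/
def pw (l : ℂ) : ArithmeticFunction ℂ := ⟨fun n => if n = 0 then 0 else (n : ℂ) ^ l, by simp⟩

lemma pw_apply {n : ℕ} (l : ℂ) (hn : n ≠ 0) : pw l n = (n : ℂ) ^ l := by
  unfold pw
  simp [hn]

lemma pw_mult (l : ℂ) : (pw l).IsMultiplicative := by
  rw [ArithmeticFunction.IsMultiplicative.iff_ne_zero]
  refine ⟨by rw [pw_apply l one_ne_zero]; simp, fun {m n} hm hn _ => ?_⟩
  rw [pw_apply l (mul_ne_zero hm hn), pw_apply l hm, pw_apply l hn, Nat.cast_mul,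
    Complex.natCast_mul_natCast_cpow]

/-- `tau` as an arithmetic function -/
def tauA {k : ℕ} (l : Fin k → ℂ) : ArithmeticFunction ℂ := ⟨tau l, tau_zero l⟩

lemma tauA_apply {k : ℕ} (l : Fin k → ℂ) (n : ℕ) : tauA l n = tau l n := rfl

lemma tauA_succ {k : ℕ} (l : Fin (k + 1) → ℂ) : tauA l = pw (l 0) * tauA (fun j => l j.succ) := by
  ext n
  rw [tauA_apply, tau_succ, ArithmeticFunction.mul_apply]
  refine Finset.sum_congr rfl fun p hp => ?_
  have h := Nat.mem_divisorsAntidiagonal.1 hp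
  have h1 : p.1 ≠ 0 := by
    rintro h0
    rw [h0, zero_mul] at h
    exact h.2 h.1.symm
  rw [pw_apply _ h1, tauA_apply]

lemma tauA_mult : ∀ {k : ℕ} (l : Fin k → ℂ), (tauA l).IsMultiplicative
  | 0, l => by
      have : tauA l = 1 := by
        ext n
        rw [tauA_apply, tau_nil, ArithmeticFunction.one_apply]
      rw [this]
      exact ArithmeticFunction.isMultiplicative_one
  | k + 1, l => by
      rw [tauA_succ]
      exact (pw_mult _).mul (tauA_mult _)

lemma tau_prime : ∀ {k : ℕ} (l : Fin k → ℂ) {p : ℕ}, p.Prime → tau l p = ∑ j, (p : ℂ) ^ (l j)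
  | 0, l, p, hp => by
      rw [tau_nil, if_neg hp.one_lt.ne']
      simp
  | k + 1, l, p, hp => by
      rw [tau_succ, Nat.sum_divisorsAntidiagonal
        (fun a b => (a : ℂ) ^ (l 0) * tau (fun j => l j.succ) b), Nat.Prime.divisors hp,
        Finset.sum_pair hp.one_lt.ne, Nat.div_one, Nat.div_self hp.pos, tau_prime _ hp, tau_one,
        Fin.sum_univ_succ]
      simp
      ring

/-- twisting `tau` -/
lemma tau_shift {k : ℕ} (l : Fin k → ℂ) (h : ℂ) (n : ℕ) :
    tau (fun j => l j + h) n = (n : ℂ) ^ h * tau l n := by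
  unfold tau
  rw [Finset.mul_sum]
  refine Finset.sum_congr rfl fun f hf => ?_
  have hpos : ∀ j, f j ≠ 0 := fun j => Nat.ne_zero_of_mem_finMulAntidiag hf j
  have e1 : ∀ j, (f j : ℂ) ^ (l j + h) = (f j : ℂ) ^ (l j) * (f j : ℂ) ^ h := fun j =>
    Complex.cpow_add _ _ (by exact_mod_cast hpos j)
  simp only [e1]
  rw [Finset.prod_mul_distrib, mul_comm]
  congr 1
  have h3 : ∀ s : Finset (Fin k), ∏ j ∈ s, (f j : ℂ) ^ h = ((∏ j ∈ s, f j : ℕ) : ℂ) ^ h := by
    intro s
    classical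
    induction s using Finset.induction_on with
    | empty => simp
    | insert i s hi ih =>
      rw [Finset.prod_insert hi, Finset.prod_insert hi, ih, Nat.cast_mul,
        Complex.natCast_mul_natCast_cpow]
  rw [h3, Nat.prod_eq_of_mem_finMulAntidiag hf]

lemma tau_perm {k : ℕ} (l : Fin k → ℂ) (σ : Equiv.Perm (Fin k)) (n : ℕ) :
    tau (fun j => l (σ j)) n = tau l n := by
  unfold tau
  refine Finset.sum_bij' (fun f _ => fun j => f (σ.symm j)) (fun f _ => fun j => f (σ j)) ?_ ?_ ?_ ?_ ?_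
  · intro f hf
    rw [Nat.mem_finMulAntidiag] at hf ⊢
    rw [Equiv.prod_comp σ.symm f]
    exact hf
  · intro f hf
    rw [Nat.mem_finMulAntidiag] at hf ⊢
    rw [Equiv.prod_comp σ f]
    exact hf
  · intro f _; funext j; simp
  · intro f _; funext j; simp
  · intro f _
    rw [← Equiv.prod_comp σ (fun j => (f (σ.symm j) : ℂ) ^ (l j))]
    simp

end

end Pool.Agent.TH612.CF
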